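import Pool.Agent.J4.H77.HW.Stable

set_option autoImplicit false

/-! Clique minors of arc graphs (line digraphs). -/

namespace Pool.Agent.J4.H77.HW

open Finset

variable {V : Type}

/-- the arcs of the digraph `D` -/
abbrev Arc (D : V → V → Prop) := {e : V × V // D e.1 e.2}

/-- the arc graph -/
def arcGraph (D : V → V → Prop) (hD : ∀ v, ¬ D v v) : SimpleGraph (Arc D) where
  Adj e f := e.1.2 = f.1.1 ∨ f.1.2 = e.1.1
  symm := ⟨fun _ _ h => h.symm⟩
  loopless := ⟨fun e h => hD e.1.1 (by
    have h2 : e.1.2 = e.1.1 := by rcases h with h | h <;> exact h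
    have := e.2
    rwa [h2] at this)⟩

/-- the vertices in `H` can be coloured with `q` colours -/
def Col (D : V → V → Prop) (q : ℕ) (H : Finset V) : Prop :=
  ∃ c : V → Fin q, ∀ u ∈ H, ∀ v ∈ H, D u v → c u ≠ c v

/-- a colouring of the vertices with few colours gives a colouring of the arcs with very few
colours -/
lemma arc_col {D : V → V → Prop} (hD : ∀ v, ¬ D v v) {N k : ℕ} (hN : N ≤ k.choose (k / 2))
    (c : V → Fin N) (hc : ∀ u v, D u v → c u ≠ c v) : (arcGraph D hD).Colorable k := by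
  have hcard : Fintype.card (Fin N) ≤
      Fintype.card (powersetCard (k / 2) (univ : Finset (Fin k))) := by
    rw [Fintype.card_fin, Fintype.card_coe, card_powersetCard, card_univ, Fintype.card_fin]
    exact hN
  obtain ⟨ι⟩ := Function.Embedding.nonempty_of_card_le hcard
  have hS : ∀ i, (ι i).1.card = k / 2 := fun i => (mem_powersetCard.mp (ι i).2).2
  have hex : ∀ e : Arc D, ∃ x, x ∈ (ι (c e.1.1)).1 ∧ x ∉ (ι (c e.1.2)).1 := by
    intro e
    by_contra hcon
    push Not at hcon
    have h1 : (ι (c e.1.1)).1 ⊆ (ι (c e.1.2)).1 := hcon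
    have h2 := eq_of_subset_of_card_le h1 (by rw [hS, hS])
    exact hc _ _ e.2 (ι.injective (Subtype.ext h2))
  choose f hf1 hf2 using hex
  refine ⟨SimpleGraph.Coloring.mk f ?_⟩
  intro e e' h he
  rcases h with h | h
  · apply hf2 e
    rw [he, h]
    exact hf1 e'
  · apply hf2 e'
    rw [← he, h]
    exact hf1 e

/-- a minimal set which is not `q`-colourable -/
lemma exists_min {D : V → V → Prop} {q : ℕ} {X : Finset V} (hX : ¬ Col D q X) :
    ∃ H, H ⊆ X ∧ ¬ Col D q H ∧ ∀ H', H' ⊂ H → Col D q H' := by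
  classical
  obtain ⟨H, hH, hmin⟩ := exists_min_image (X.powerset.filter (fun H => ¬ Col D q H)) card
    ⟨X, by simp [hX]⟩
  rw [mem_filter, mem_powerset] at hH
  refine ⟨H, hH.1, hH.2, ?_⟩
  intro H' hH'
  by_contra hcon
  have h1 := hmin H' (by
    rw [mem_filter, mem_powerset]
    exact ⟨hH'.1.trans hH.1, hcon⟩)
  have h2 := card_lt_card hH'
  omega

lemma min_deg [DecidableEq V] {D : V → V → Prop} [DecidableRel D] (hD : ∀ v, ¬ D v v) {q : ℕ}
    {H : Finset V} (hH : ¬ Col D q H) (hmin : ∀ H', H' ⊂ H → Col D q H') {v : V} (hv : v ∈ H) :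
    q ≤ (H.filter (fun u => D u v ∨ D v u)).card := by
  by_contra hcon
  push Not at hcon
  obtain ⟨c, hc⟩ := hmin (H.erase v) (erase_ssubset hv)
  have h1 : ((H.filter (fun u => D u v ∨ D v u)).image c).card < (univ : Finset (Fin q)).card := by
    rw [card_univ, Fintype.card_fin]
    exact lt_of_le_of_lt card_image_le hcon
  obtain ⟨x, -, hx⟩ := exists_mem_notMem_of_card_lt_card h1
  apply hH
  refine ⟨fun u => if u = v then x else c u, ?_⟩
  intro a ha b hb hab
  by_cases hav : a = v
  · have hbv : b ≠ v := by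
      rintro rfl
      rw [hav] at hab
      exact hD _ hab
    simp only [hav, if_true, hbv, if_false]
    intro h
    apply hx
    rw [mem_image]
    exact ⟨b, mem_filter.mpr ⟨hb, Or.inr (hav ▸ hab)⟩, h.symm⟩
  · by_cases hbv : b = v
    · simp only [hav, if_false, hbv, if_true]
      intro h
      apply hx
      rw [mem_image]
      exact ⟨a, mem_filter.mpr ⟨ha, Or.inl (hbv ▸ hab)⟩, h⟩
    · simp only [hav, hbv, if_false]
      exact hc a (mem_erase.mpr ⟨hav, ha⟩) b (mem_erase.mpr ⟨hbv, hb⟩) hab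

lemma min_conn [DecidableEq V] {D : V → V → Prop} {q : ℕ} {H : Finset V} (hH : ¬ Col D q H)
    (hmin : ∀ H', H' ⊂ H → Col D q H') {v : V} (hv : v ∈ H) {A : Finset V}
    (hA : A ⊆ H.erase v) (hne : A.Nonempty)
    (hcl : ∀ x ∈ A, ∀ y ∈ H.erase v, D x y ∨ D y x → y ∈ A) : A = H.erase v := by
  by_contra hcon
  have hvA : v ∉ A := fun h => (mem_erase.mp (hA h)).1 rfl
  obtain ⟨y, hy, hyA⟩ : ∃ y ∈ H.erase v, y ∉ A := by
    by_contra h
    push Not at h
    exact hcon (Subset.antisymm hA h)
  obtain ⟨a, ha⟩ := hne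
  have haH : a ∈ H := (mem_erase.mp (hA ha)).2
  obtain ⟨c1, hc1⟩ := hmin (insert v A) (by
    rw [ssubset_iff_of_subset (insert_subset hv (hA.trans (erase_subset _ _)))]
    exact ⟨y, (mem_erase.mp hy).2, by
      rw [mem_insert]
      rintro (h | h)
      · exact (mem_erase.mp hy).1 h
      · exact hyA h⟩)
  obtain ⟨c2, hc2⟩ := hmin (H \ A) (by
    rw [ssubset_iff_of_subset sdiff_subset]
    exact ⟨a, haH, fun h => (mem_sdiff.mp h).2 ha⟩)
  have hvB : v ∈ H \ A := mem_sdiff.mpr ⟨hv, hvA⟩
  have hσv : Equiv.swap (c2 v) (c1 v) (c2 v) = c1 v := Equiv.swap_apply_left _ _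
  apply hH
  refine ⟨fun x => if x ∈ A then c1 x else Equiv.swap (c2 v) (c1 v) (c2 x), ?_⟩
  intro x hx z hz hxz
  by_cases hxA : x ∈ A
  · by_cases hzA : z ∈ A
    · simp only [hxA, hzA, if_true]
      exact hc1 x (mem_insert_of_mem hxA) z (mem_insert_of_mem hzA) hxz
    · have hzv : z = v := by
        by_contra hzv
        exact hzA (hcl x hxA z (mem_erase.mpr ⟨hzv, hz⟩) (Or.inl hxz))
      simp only [hxA, hzA, if_true, if_false]
      rw [hzv, hσv]
      exact hc1 x (mem_insert_of_mem hxA) v (mem_insert_self _ _) (hzv ▸ hxz)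
  · by_cases hzA : z ∈ A
    · have hxv : x = v := by
        by_contra hxv
        exact hxA (hcl z hzA x (mem_erase.mpr ⟨hxv, hx⟩) (Or.inr hxz))
      simp only [hxA, hzA, if_true, if_false]
      rw [hxv, hσv]
      exact hc1 v (mem_insert_self _ _) z (mem_insert_of_mem hzA) (hxv ▸ hxz)
    · simp only [hxA, hzA, if_false]
      intro h
      exact hc2 x (mem_sdiff.mpr ⟨hx, hxA⟩) z (mem_sdiff.mpr ⟨hz, hzA⟩) hxz
        ((Equiv.swap (c2 v) (c1 v)).injective h)

/-- counting: the minimal set is regular -/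
lemma regular [DecidableEq V] {D : V → V → Prop} [DecidableRel D] {d : ℕ} {H : Finset V}
    (hdeg : ∀ x ∈ H, 2 * d ≤ (H.filter (fun u => D u x ∨ D x u)).card)
    (hio : (∀ x ∈ H, (H.filter (fun u => D u x)).card ≤ d) ∨
      (∀ x ∈ H, (H.filter (fun u => D x u)).card ≤ d)) :
    ∀ x ∈ H, (H.filter (fun u => D u x)).card = d ∧ (H.filter (fun u => D x u)).card = d ∧
      ∀ u ∈ H, D u x → ¬ D x u := by
  have hsum : ∑ x ∈ H, (H.filter (fun u => D u x)).card = ∑ x ∈ H, (H.filter (fun u => D x u)).card :=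
    (sum_card_bipartiteAbove_eq_sum_card_bipartiteBelow D).symm
  have hle : ∀ x ∈ H, 2 * d ≤ (H.filter (fun u => D u x)).card + (H.filter (fun u => D x u)).card := by
    intro x hx
    refine (hdeg x hx).trans ?_
    rw [filter_or]
    exact card_union_le _ _
  have hsum2 : ∑ x ∈ H, 2 * d ≤ ∑ x ∈ H, (H.filter (fun u => D u x)).card +
      ∑ x ∈ H, (H.filter (fun u => D x u)).card := by
    rw [← sum_add_distrib]
    exact sum_le_sum hle
  have hboth : (∀ x ∈ H, (H.filter (fun u => D u x)).card + (H.filter (fun u => D x u)).card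
      = 2 * d) ∧ ((∀ x ∈ H, (H.filter (fun u => D u x)).card = d) ∨
        (∀ x ∈ H, (H.filter (fun u => D x u)).card = d)) := by
    have hc : ∑ _x ∈ H, 2 * d = 2 * ∑ _x ∈ H, d := by rw [mul_sum]
    rcases hio with h | h
    · have h1 := sum_le_sum h
      have h2 : ∑ x ∈ H, (H.filter (fun u => D u x)).card = ∑ _x ∈ H, d := by omega
      have h3 := (sum_eq_sum_iff_of_le h).mp h2
      have h4 : ∑ x ∈ H, 2 * d = ∑ x ∈ H, ((H.filter (fun u => D u x)).card +
          (H.filter (fun u => D x u)).card) := by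
        rw [sum_add_distrib]
        omega
      have h5 := (sum_eq_sum_iff_of_le hle).mp h4
      exact ⟨fun x hx => (h5 x hx).symm, Or.inl h3⟩
    · have h1 := sum_le_sum h
      have h2 : ∑ x ∈ H, (H.filter (fun u => D x u)).card = ∑ _x ∈ H, d := by omega
      have h3 := (sum_eq_sum_iff_of_le h).mp h2
      have h4 : ∑ x ∈ H, 2 * d = ∑ x ∈ H, ((H.filter (fun u => D u x)).card +
          (H.filter (fun u => D x u)).card) := by
        rw [sum_add_distrib]
        omega
      have h5 := (sum_eq_sum_iff_of_le hle).mp h4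
      exact ⟨fun x hx => (h5 x hx).symm, Or.inr h3⟩
  intro x hx
  have h1 := hboth.1 x hx
  have h2 : (H.filter (fun u => D u x)).card = d ∧ (H.filter (fun u => D x u)).card = d := by
    rcases hboth.2 with h | h
    · have := h x hx
      omega
    · have := h x hx
      omega
  refine ⟨h2.1, h2.2, ?_⟩
  intro u hu hux hxu
  have h3 := hdeg x hx
  have h6 : H.filter (fun u => D u x ∨ D x u) =
      (H.filter (fun u => D u x)) ∪ (H.filter (fun u => D x u)) := filter_or _ _ _
  rw [h6] at h3
  have h4 := card_union_add_card_inter (H.filter (fun u => D u x)) (H.filter (fun u => D x u))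
  have h5 : 0 < ((H.filter (fun u => D u x)) ∩ (H.filter (fun u => D x u))).card := by
    rw [card_pos]
    exact ⟨u, mem_inter.mpr ⟨mem_filter.mpr ⟨hu, hux⟩, mem_filter.mpr ⟨hu, hxu⟩⟩⟩
  omega

/-- complete bipartite graphs and clique minors -/
lemma kbip {α : Type} {G : SimpleGraph α} (a b : ℕ → α) : ∀ t : ℕ,
    (∀ i, i < t + 1 → ∀ j, j < t + 1 → G.Adj (a i) (b j)) →
    (∀ i, i < t + 1 → ∀ j, j < t + 1 → a i = a j → i = j) →
    (∀ i, i < t + 1 → ∀ j, j < t + 1 → b i = b j → i = j) →
    Model G {x | ∃ i, i < t + 1 ∧ (x = a i ∨ x = b i)} (t + 2) := by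
  have conn1 : ∀ r : α, (G.induce ({r} : Set α)).Connected := by
    intro r
    rw [SimpleGraph.connected_iff_exists_forall_reachable]
    refine ⟨⟨r, rfl⟩, ?_⟩
    rintro ⟨w, hw⟩
    have : w = r := hw
    subst this
    exact SimpleGraph.Reachable.refl _
  intro t
  induction t with
  | zero =>
    intro h1 _ _
    have m0 : Model G (∅ : Set α) 0 := ⟨fun i => i.elim0, fun i => i.elim0, fun i => i.elim0,
      fun i => i.elim0, fun i => i.elim0⟩
    have m1 : Model G ({a 0} : Set α) 1 :=
      m0.succ (R := {a 0}) (Set.empty_subset _) le_rfl (conn1 _) (Set.disjoint_empty _)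
        (fun v hv => absurd hv (Set.notMem_empty v))
    refine m1.succ (R := {b 0}) ?_ ?_ (conn1 _) ?_ ?_
    · intro x hx
      exact ⟨0, by omega, Or.inl hx⟩
    · intro x hx
      exact ⟨0, by omega, Or.inr hx⟩
    · rw [Set.disjoint_singleton]
      exact (h1 0 (by omega) 0 (by omega)).ne.symm
    · intro v hv
      have : v = a 0 := hv
      subst this
      exact ⟨b 0, rfl, h1 0 (by omega) 0 (by omega)⟩
  | succ t ih =>
    intro h1 h2 h3
    have mt := ih (fun i hi j hj => h1 i (by omega) j (by omega))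
      (fun i hi j hj => h2 i (by omega) j (by omega))
      (fun i hi j hj => h3 i (by omega) j (by omega))
    have hne : ∀ i, i < t + 1 + 1 → ∀ j, j < t + 1 + 1 → a i ≠ b j :=
      fun i hi j hj => (h1 i hi j hj).ne
    refine mt.succ (R := {a (t + 1), b (t + 1)}) ?_ ?_ ?_ ?_ ?_
    · rintro x ⟨i, hi, hx⟩
      exact ⟨i, by omega, hx⟩
    · rintro x (rfl | hx)
      · exact ⟨t + 1, by omega, Or.inl rfl⟩
      · exact ⟨t + 1, by omega, Or.inr hx⟩
    · rw [SimpleGraph.connected_iff_exists_forall_reachable]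
      refine ⟨⟨a (t + 1), Or.inl rfl⟩, ?_⟩
      rintro ⟨w, hw⟩
      rcases hw with rfl | hw
      · exact SimpleGraph.Reachable.refl _
      · have : w = b (t + 1) := hw
        subst this
        have h4 : (G.induce ({a (t + 1), b (t + 1)} : Set α)).Adj ⟨a (t + 1), Or.inl rfl⟩
          ⟨b (t + 1), Or.inr rfl⟩ := h1 _ (by omega) _ (by omega)
        exact h4.reachable
    · rw [Set.disjoint_left]
      rintro x hx ⟨i, hi, hxi⟩
      rcases hx with rfl | hx
      · rcases hxi with h | h
        · have := h2 _ (by omega) _ (by omega) h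
          omega
        · exact hne _ (by omega) _ (by omega) h
      · have : x = b (t + 1) := hx
        subst this
        rcases hxi with h | h
        · exact hne _ (by omega) _ (by omega) h.symm
        · have := h3 _ (by omega) _ (by omega) h
          omega
    · rintro v ⟨i, hi, rfl | rfl⟩
      · exact ⟨b (t + 1), Or.inr rfl, h1 _ (by omega) _ (by omega)⟩
      · exact ⟨a (t + 1), Or.inl rfl, (h1 _ (by omega) _ (by omega)).symm⟩

end Pool.Agent.J4.H77.HW
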