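import Pool.Agent.J4.H77.HW.ArcMain

set_option autoImplicit false

/-! # Hadwiger's conjecture for arc graphs (line digraphs) of chromatic number at least seven

The arc graph `δD` of a digraph `D` has the arcs of `D` as vertices; two arcs are adjacent if the
head of one is the tail of the other.  Examples are the shift graphs.  We show: if `k ≥ 6` and `δD`
is not `k`-colourable, then `K_{k+1}` is a minor of `δD`.  This is Hadwiger's conjecture for all arc
graphs with chromatic number at least `7`; for chromatic number at most `6` it is known for all
graphs (Robertson, Seymour, Thomas), so that it holds for all arc graphs.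

Proof.  If `D` has a proper vertex colouring with `C(k, k/2)` colours, then `δD` is `k`-colourable
(Sperner).  If some vertex of `D` has at least `k` entering and `k` leaving arcs, then these form a
`K_{k,k}` in `δD`.  Otherwise each vertex has indegree or outdegree at most `k - 1`, and as
`4 (k - 1) ≤ C(k, k/2)`, the vertices of small indegree or those of small outdegree cannot be
coloured with `2 (k - 1)` colours.  A minimal set `H` of this kind induces a digraph without
2-cycles in which all indegrees and outdegrees are `k - 1`, and it stays connected after the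
deletion of a vertex `v`.  The arcs at `v` form a `K_{k-1,k-1}`, and the arcs of `H - v` are the last
branch set. -/

namespace Pool.Agent.Results.MP_b47bfb_co.ArcGraphs

/-- `K_m` is a minor of `G`. -/
def HasCliqueMinor {V : Type} (G : SimpleGraph V) (m : ℕ) : Prop :=
  ∃ B : Fin m → Set V, (∀ i, (G.induce (B i)).Connected) ∧
    (∀ i j, i ≠ j → Disjoint (B i) (B j)) ∧
    ∀ i j, i ≠ j → ∃ u ∈ B i, ∃ v ∈ B j, G.Adj u v

/-- The arc graph of the loopless digraph with the arcs `u → v` for `D u v`: its vertices are the
arcs, and two arcs `e = (u, v)`, `f = (x, y)` are adjacent if `v = x` or `y = u`. -/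
def arcGraph {V : Type} (D : V → V → Prop) (hD : ∀ v, ¬ D v v) :
    SimpleGraph {e : V × V // D e.1 e.2} where
  Adj e f := e.1.2 = f.1.1 ∨ f.1.2 = e.1.1
  symm := ⟨fun _ _ h => h.symm⟩
  loopless := ⟨fun e h => hD e.1.1 (by
    have h2 : e.1.2 = e.1.1 := by rcases h with h | h <;> exact h
    have := e.2
    rwa [h2] at this)⟩

/-- **Hadwiger's conjecture for arc graphs.** Let `D` be a finite loopless digraph and `k ≥ 6`.  If
the arc graph of `D` is not `k`-colourable, then it has a `K_{k+1}` minor. -/
theorem result (V : Type) [Finite V] (D : V → V → Prop) (hD : ∀ v, ¬ D v v) (k : ℕ) (hk : 6 ≤ k)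
    (hcol : ¬ (arcGraph D hD).Colorable k) : HasCliqueMinor (arcGraph D hD) (k + 1) := by
  obtain ⟨B, -, h⟩ := Pool.Agent.J4.H77.HW.arc_main D hD hk hcol
  exact ⟨B, h⟩

end Pool.Agent.Results.MP_b47bfb_co.ArcGraphs
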