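import Pool.Agent.J4.H77.HW.Arc

set_option autoImplicit false

/-! Clique minors of arc graphs: the main theorem. -/

namespace Pool.Agent.J4.H77.HW

open Finset

variable {V : Type}

/-- the arcs at a vertex -/
lemma star_minor [DecidableEq V] {D : V → V → Prop} (hD : ∀ v, ¬ D v v) (v : V) (t : ℕ)
    (P Q : Finset V) (hP : P.card = t + 1) (hQ : Q.card = t + 1) (hPD : ∀ u ∈ P, D u v)
    (hQD : ∀ w ∈ Q, D v w) :
    Model (arcGraph D hD) {e | (e.1.1 ∈ P ∧ e.1.2 = v) ∨ (e.1.1 = v ∧ e.1.2 ∈ Q)} (t + 2) := by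
  let eP : Fin (t + 1) ≃ P := (P.equivFinOfCardEq hP).symm
  let eQ : Fin (t + 1) ≃ Q := (Q.equivFinOfCardEq hQ).symm
  let fn : ℕ → Fin (t + 1) := fun i => if h : i < t + 1 then ⟨i, h⟩ else 0
  have hfn : ∀ i, i < t + 1 → ∀ j, j < t + 1 → fn i = fn j → i = j := by
    intro i hi j hj h
    simp only [fn, hi, hj, dif_pos] at h
    exact congrArg Fin.val h
  let a : ℕ → Arc D := fun i => ⟨((eP (fn i)).1, v), hPD _ (eP (fn i)).2⟩
  let b : ℕ → Arc D := fun i => ⟨(v, (eQ (fn i)).1), hQD _ (eQ (fn i)).2⟩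
  have h := kbip (G := arcGraph D hD) a b t (fun i _ j _ => Or.inl rfl) ?_ ?_
  · refine h.mono ?_
    rintro x ⟨i, _, rfl | rfl⟩
    · exact Or.inl ⟨(eP (fn i)).2, rfl⟩
    · exact Or.inr ⟨rfl, (eQ (fn i)).2⟩
  · intro i hi j hj hij
    have h1 : (eP (fn i)).1 = (eP (fn j)).1 := congrArg (fun e : Arc D => e.1.1) hij
    exact hfn i hi j hj (eP.injective (Subtype.ext h1))
  · intro i hi j hj hij
    have h1 : (eQ (fn i)).1 = (eQ (fn j)).1 := congrArg (fun e : Arc D => e.1.2) hij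
    exact hfn i hi j hj (eQ.injective (Subtype.ext h1))

/-- a regular digraph which stays connected after the deletion of a vertex -/
lemma regMinor [DecidableEq V] {D : V → V → Prop} [DecidableRel D] (hD : ∀ v, ¬ D v v) {d : ℕ}
    (hd : 2 ≤ d) {H : Finset V} (hne : H.Nonempty)
    (hreg : ∀ x ∈ H, (H.filter (fun u => D u x)).card = d ∧
      (H.filter (fun u => D x u)).card = d ∧ ∀ u ∈ H, D u x → ¬ D x u)
    (hconn : ∀ v ∈ H, ∀ A : Finset V, A ⊆ H.erase v → A.Nonempty →
      (∀ x ∈ A, ∀ y ∈ H.erase v, D x y ∨ D y x → y ∈ A) → A = H.erase v) :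
    Model (arcGraph D hD) Set.univ (d + 2) := by
  classical
  obtain ⟨v, hv⟩ := hne
  -- arcs in `H` avoiding `v`
  have hin : ∀ x ∈ H, ∀ z, ∃ u ∈ H, D u x ∧ u ≠ z := by
    intro x hx z
    have h1 : 1 < (H.filter (fun u => D u x)).card := by
      rw [(hreg x hx).1]; omega
    obtain ⟨u, hu, hne⟩ := exists_mem_ne h1 z
    rw [mem_filter] at hu
    exact ⟨u, hu.1, hu.2, hne⟩
  have hout : ∀ x ∈ H, ∀ z, ∃ u ∈ H, D x u ∧ u ≠ z := by
    intro x hx z
    have h1 : 1 < (H.filter (fun u => D x u)).card := by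
      rw [(hreg x hx).2.1]; omega
    obtain ⟨u, hu, hne⟩ := exists_mem_ne h1 z
    rw [mem_filter] at hu
    exact ⟨u, hu.1, hu.2, hne⟩
  set R : Set (Arc D) := {e | e.1.1 ∈ H.erase v ∧ e.1.2 ∈ H.erase v} with hR
  -- the arcs of `R` at a vertex are in one component
  have hstar : ∀ x ∈ H.erase v, ∀ (e f : Arc D) (he : e ∈ R) (hf : f ∈ R),
      (e.1.1 = x ∨ e.1.2 = x) → (f.1.1 = x ∨ f.1.2 = x) →
      ((arcGraph D hD).induce R).Reachable ⟨e, he⟩ ⟨f, hf⟩ := by
    intro x hx e f he hf hex hfx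
    have hxH := (mem_erase.mp hx).2
    obtain ⟨u, hu, hux, huv⟩ := hin x hxH v
    obtain ⟨w, hw, hxw, hwv⟩ := hout x hxH v
    have hg1 : (⟨(u, x), hux⟩ : Arc D) ∈ R := ⟨mem_erase.mpr ⟨huv, hu⟩, hx⟩
    have hg2 : (⟨(x, w), hxw⟩ : Arc D) ∈ R := ⟨hx, mem_erase.mpr ⟨hwv, hw⟩⟩
    have key : ∀ (e : Arc D) (he : e ∈ R), (e.1.1 = x ∨ e.1.2 = x) →
        ((arcGraph D hD).induce R).Reachable ⟨e, he⟩ ⟨⟨(u, x), hux⟩, hg1⟩ := by
      intro e he hex
      have h12 : ((arcGraph D hD).induce R).Adj ⟨⟨(x, w), hxw⟩, hg2⟩ ⟨⟨(u, x), hux⟩, hg1⟩ :=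
        Or.inr rfl
      rcases hex with h | h
      · have : ((arcGraph D hD).induce R).Adj ⟨e, he⟩ ⟨⟨(u, x), hux⟩, hg1⟩ := Or.inr h.symm
        exact this.reachable
      · have : ((arcGraph D hD).induce R).Adj ⟨e, he⟩ ⟨⟨(x, w), hxw⟩, hg2⟩ := Or.inl h
        exact this.reachable.trans h12.reachable
    exact (key e he hex).trans (key f hf hfx).symm
  -- `R` is connected
  have hRconn : ((arcGraph D hD).induce R).Connected := by
    obtain ⟨u, hu, huv, -⟩ := hin v hv v
    have huv' : u ≠ v := by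
      rintro rfl
      exact hD _ huv
    obtain ⟨x, hx, hxu, hxv⟩ := hin u hu v
    have he0 : (⟨(x, u), hxu⟩ : Arc D) ∈ R :=
      ⟨mem_erase.mpr ⟨hxv, hx⟩, mem_erase.mpr ⟨huv', hu⟩⟩
    rw [SimpleGraph.connected_iff_exists_forall_reachable]
    refine ⟨⟨⟨(x, u), hxu⟩, he0⟩, ?_⟩
    have hA := hconn v hv ((H.erase v).filter (fun y => ∃ (e : Arc D) (he : e ∈ R),
      (e.1.1 = y ∨ e.1.2 = y) ∧ ((arcGraph D hD).induce R).Reachable ⟨⟨(x, u), hxu⟩, he0⟩
        ⟨e, he⟩)) (filter_subset _ _)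
      ⟨x, mem_filter.mpr ⟨mem_erase.mpr ⟨hxv, hx⟩, _, he0, Or.inl rfl,
        SimpleGraph.Reachable.refl _⟩⟩ (by
        intro y hy z hz hyz
        rw [mem_filter] at hy ⊢
        obtain ⟨hyH, e, he, hey, hre⟩ := hy
        refine ⟨hz, ?_⟩
        rcases hyz with h | h
        · have hg : (⟨(y, z), h⟩ : Arc D) ∈ R := ⟨hyH, hz⟩
          exact ⟨_, hg, Or.inr rfl, hre.trans (hstar y hyH _ _ he hg hey (Or.inl rfl))⟩
        · have hg : (⟨(z, y), h⟩ : Arc D) ∈ R := ⟨hz, hyH⟩
          exact ⟨_, hg, Or.inl rfl, hre.trans (hstar y hyH _ _ he hg hey (Or.inr rfl))⟩)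
    rintro ⟨f, hf⟩
    have hf1 := hf.1
    rw [← hA, mem_filter] at hf1
    obtain ⟨-, e, he, hey, hre⟩ := hf1
    exact hre.trans (hstar f.1.1 hf.1 _ _ he hf hey (Or.inl rfl))
  -- the star at `v`
  obtain ⟨t, rfl⟩ : ∃ t, d = t + 1 := ⟨d - 1, by omega⟩
  have hM := star_minor hD v t (H.filter (fun u => D u v)) (H.filter (fun u => D v u))
    (hreg v hv).1 (hreg v hv).2.1 (fun u hu => (mem_filter.mp hu).2)
    (fun u hu => (mem_filter.mp hu).2)
  refine hM.succ (R := R) (Set.subset_univ _) (Set.subset_univ _) hRconn ?_ ?_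
  · rw [Set.disjoint_left]
    rintro e he (h | h)
    · exact (mem_erase.mp he.2).1 h.2
    · exact (mem_erase.mp he.1).1 h.1
  · rintro e (h | h)
    · -- `e` enters `v`
      obtain ⟨huH, huv⟩ := mem_filter.mp h.1
      have hune : e.1.1 ≠ v := by
        intro h2
        rw [h2] at huv
        exact hD _ huv
      obtain ⟨x, hx, hxu, hxv⟩ := hin e.1.1 huH v
      exact ⟨⟨(x, e.1.1), hxu⟩, ⟨mem_erase.mpr ⟨hxv, hx⟩, mem_erase.mpr ⟨hune, huH⟩⟩, Or.inr rfl⟩
    · obtain ⟨hwH, hvw⟩ := mem_filter.mp h.2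
      have hwne : e.1.2 ≠ v := by
        intro h2
        rw [h2] at hvw
        exact hD _ hvw
      obtain ⟨x, hx, hwx, hxv⟩ := hout e.1.2 hwH v
      exact ⟨⟨(e.1.2, x), hwx⟩, ⟨mem_erase.mpr ⟨hwne, hwH⟩, mem_erase.mpr ⟨hxv, hx⟩⟩, Or.inl rfl⟩

lemma choose_big {k : ℕ} (hk : 6 ≤ k) : 2 * (k - 1) + 2 * (k - 1) ≤ k.choose (k / 2) := by
  refine le_trans ?_ (Nat.choose_le_middle 3 k)
  obtain ⟨j, rfl⟩ : ∃ j, k = j + 6 := ⟨k - 6, by omega⟩
  have h1 := Nat.descFactorial_eq_factorial_mul_choose (j + 6) 3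
  have h2 : (j + 6).descFactorial 3 = (j + 4) * ((j + 5) * (j + 6)) := by
    simp only [Nat.descFactorial_succ, Nat.descFactorial_zero]
    have e1 : j + 6 - 2 = j + 4 := by omega
    have e2 : j + 6 - 1 = j + 5 := by omega
    have e3 : j + 6 - 0 = j + 6 := by omega
    rw [e1, e2, e3]
    ring
  have h3 : (3 : ℕ).factorial = 6 := rfl
  rw [h2, h3] at h1
  have e4 : j + 6 - 1 = j + 5 := by omega
  rw [e4]
  have h5 : 24 * (j + 5) ≤ (j + 4) * ((j + 5) * (j + 6)) := by
    calc 24 * (j + 5) ≤ (j ^ 2 + 10 * j + 24) * (j + 5) :=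
          Nat.mul_le_mul_right _ (by omega)
      _ = (j + 4) * ((j + 5) * (j + 6)) := by ring
  omega

/-- **Clique minors of arc graphs.** -/
theorem arc_main [Finite V] (D : V → V → Prop) (hD : ∀ v, ¬ D v v) {k : ℕ} (hk : 6 ≤ k)
    (hcol : ¬ (arcGraph D hD).Colorable k) : Model (arcGraph D hD) Set.univ (k + 1) := by
  classical
  have := Fintype.ofFinite V
  by_cases hbig : ∃ v, k ≤ (univ.filter (fun u => D u v)).card ∧
      k ≤ (univ.filter (fun u => D v u)).card
  · obtain ⟨v, h1, h2⟩ := hbig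
    obtain ⟨P, hP, hPc⟩ := exists_subset_card_eq h1
    obtain ⟨Q, hQ, hQc⟩ := exists_subset_card_eq h2
    obtain ⟨t, rfl⟩ : ∃ t, k = t + 1 := ⟨k - 1, by omega⟩
    exact (star_minor hD v t P Q hPc hQc (fun u hu => (mem_filter.mp (hP hu)).2)
      (fun u hu => (mem_filter.mp (hQ hu)).2)).mono (Set.subset_univ _)
  · push Not at hbig
    have fin : ∀ H : Finset V, ¬ Col D (2 * (k - 1)) H →
        (∀ H', H' ⊂ H → Col D (2 * (k - 1)) H') →
        ((∀ x ∈ H, (H.filter (fun u => D u x)).card ≤ k - 1) ∨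
          (∀ x ∈ H, (H.filter (fun u => D x u)).card ≤ k - 1)) →
        Model (arcGraph D hD) Set.univ (k + 1) := by
      intro H h1 h2 h3
      have hne : H.Nonempty := by
        rw [nonempty_iff_ne_empty]
        rintro rfl
        apply h1
        refine ⟨fun _ => ⟨0, by omega⟩, fun u hu => absurd hu (notMem_empty u)⟩
      have hreg := regular (D := D) (d := k - 1) (H := H)
        (fun x hx => min_deg hD h1 h2 hx) h3
      have := regMinor hD (d := k - 1) (by omega) hne hreg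
        (fun v hv A hA hAne hcl => min_conn h1 h2 hv hA hAne hcl)
      have e : k - 1 + 2 = k + 1 := by omega
      rwa [e] at this
    set X : Finset V := univ.filter (fun v => (univ.filter (fun u => D u v)).card < k) with hX
    by_cases hX1 : Col D (2 * (k - 1)) X
    · by_cases hX2 : Col D (2 * (k - 1)) Xᶜ
      · exfalso
        obtain ⟨c1, hc1⟩ := hX1
        obtain ⟨c2, hc2⟩ := hX2
        apply hcol
        refine arc_col hD (choose_big hk)
          (fun v => if v ∈ X then Fin.castAdd _ (c1 v) else Fin.natAdd _ (c2 v)) ?_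
        intro u v huv
        by_cases hu : u ∈ X
        · by_cases hv : v ∈ X
          · simp only [hu, hv, if_true]
            intro h
            exact hc1 u hu v hv huv (Fin.castAdd_injective _ _ h)
          · simp only [hu, hv, if_true, if_false]
            intro h
            have h1 := congrArg Fin.val h
            simp only [Fin.val_castAdd, Fin.val_natAdd] at h1
            have := (c1 u).2
            omega
        · by_cases hv : v ∈ X
          · simp only [hu, hv, if_true, if_false]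
            intro h
            have h1 := congrArg Fin.val h
            simp only [Fin.val_castAdd, Fin.val_natAdd] at h1
            have := (c1 v).2
            omega
          · simp only [hu, hv, if_false]
            intro h
            exact hc2 u (mem_compl.mpr hu) v (mem_compl.mpr hv) huv
              (Fin.natAdd_injective _ _ h)
      · obtain ⟨H, hHX, h1, h2⟩ := exists_min hX2
        refine fin H h1 h2 (Or.inr fun x hx => ?_)
        have h3 := mem_compl.mp (hHX hx)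
        rw [hX, mem_filter, not_and] at h3
        have h4 := hbig x (not_lt.mp (h3 (mem_univ _)))
        have h5 : (H.filter (fun u => D x u)).card ≤ (univ.filter (fun u => D x u)).card :=
          card_le_card (filter_subset_filter _ (subset_univ _))
        omega
    · obtain ⟨H, hHX, h1, h2⟩ := exists_min hX1
      refine fin H h1 h2 (Or.inl fun x hx => ?_)
      have h3 := (mem_filter.mp (hHX hx)).2
      have h5 : (H.filter (fun u => D u x)).card ≤ (univ.filter (fun u => D u x)).card :=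
        card_le_card (filter_subset_filter _ (subset_univ _))
      omega

end Pool.Agent.J4.H77.HW
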