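import Mathlib

set_option autoImplicit false

/-! Clique minors of direct products. -/

namespace Pool.Agent.J4.H77.HW

/-- the direct (tensor, categorical) product -/
def dprod {V W : Type} (G : SimpleGraph V) (H : SimpleGraph W) : SimpleGraph (V × W) where
  Adj x y := G.Adj x.1 y.1 ∧ H.Adj x.2 y.2
  symm := ⟨fun _ _ h => ⟨h.1.symm, h.2.symm⟩⟩
  loopless := ⟨fun _ h => h.1.ne rfl⟩

variable {V W : Type} {G : SimpleGraph V} {H : SimpleGraph W}

/-- walking along `p` in `H` and to and fro along an edge of `G` -/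
lemma alt (B : Set V) (D : Set W) (hD : ∀ a ∈ D, ∀ b, H.Adj a b → b ∈ D) {a b : W}
    (p : H.Walk a b) : ∀ (g g' : V) (hg : g ∈ B) (hg' : g' ∈ B) (_ : G.Adj g g') (ha : a ∈ D)
      (hb : b ∈ D),
      ((dprod G H).induce (B ×ˢ D)).Reachable ⟨(g, a), hg, ha⟩
        (if Even p.length then ⟨(g, b), hg, hb⟩ else ⟨(g', b), hg', hb⟩) := by
  induction p with
  | nil =>
    intro g g' hg hg' hgg ha hb
    simp
  | @cons a c b h p ih =>
    intro g g' hg hg' hgg ha hb
    have hc : c ∈ D := hD a ha c h
    have h1 := ih g' g hg' hg hgg.symm hc hb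
    have h2 : ((dprod G H).induce (B ×ˢ D)).Adj ⟨(g, a), hg, ha⟩ ⟨(g', c), hg', hc⟩ := ⟨hgg, h⟩
    refine h2.reachable.trans ?_
    rw [SimpleGraph.Walk.length_cons]
    by_cases he : Even p.length
    · rw [if_pos he] at h1
      rw [if_neg (by rwa [Nat.even_add_one, not_not])]
      exact h1
    · rw [if_neg he] at h1
      rw [if_pos (by rwa [Nat.even_add_one])]
      exact h1

/-- `B × D` is connected if `B` is connected with an edge, and `D` is a nonbipartite component -/
lemma conn_prod (B : Set V) (hB : (G.induce B).Connected) (hB2 : ∀ g ∈ B, ∃ g' ∈ B, G.Adj g g')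
    {h0 : W} (w : H.Walk h0 h0) (hw : ¬ Even w.length) :
    ((dprod G H).induce (B ×ˢ {h | H.Reachable h0 h})).Connected := by
  have hD : ∀ a ∈ {h | H.Reachable h0 h}, ∀ b, H.Adj a b → b ∈ {h | H.Reachable h0 h} := by
    intro a ha b hab
    exact SimpleGraph.Reachable.trans ha hab.reachable
  have h00 : h0 ∈ {h | H.Reachable h0 h} := SimpleGraph.Reachable.refl _
  -- all the vertices over `h0` are in one component
  have key : ∀ (x y : B) (p : (G.induce B).Walk x y),
      ((dprod G H).induce (B ×ˢ {h | H.Reachable h0 h})).Reachable ⟨(x.1, h0), x.2, h00⟩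
        ⟨(y.1, h0), y.2, h00⟩ := by
    intro x y p
    induction p with
    | nil => exact SimpleGraph.Reachable.refl _
    | @cons x z y h p ih =>
      have h1 := alt B _ hD w x.1 z.1 x.2 z.2 h h00 h00
      rw [if_neg hw] at h1
      exact h1.trans ih
  obtain ⟨g0⟩ := hB.nonempty
  rw [SimpleGraph.connected_iff_exists_forall_reachable]
  refine ⟨⟨(g0.1, h0), g0.2, h00⟩, ?_⟩
  rintro ⟨⟨g, h⟩, hg, hh⟩
  obtain ⟨g', hg', hgg⟩ := hB2 g hg
  have hr : H.Reachable h h0 := SimpleGraph.Reachable.symm hh
  obtain ⟨p⟩ := hr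
  have h1 := alt B _ hD p g g' hg hg' hgg hh h00
  by_cases he : Even p.length
  · rw [if_pos he] at h1
    obtain ⟨q⟩ := hB.preconnected g0 ⟨g, hg⟩
    exact (key _ _ q).trans h1.symm
  · rw [if_neg he] at h1
    obtain ⟨q⟩ := hB.preconnected g0 ⟨g', hg'⟩
    exact (key _ _ q).trans h1.symm

lemma conn_one {α : Type} (G : SimpleGraph α) (r : α) : (G.induce ({r} : Set α)).Connected := by
  rw [SimpleGraph.connected_iff_exists_forall_reachable]
  refine ⟨⟨r, rfl⟩, ?_⟩
  rintro ⟨w, hw⟩
  have : w = r := hw
  subst this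
  exact SimpleGraph.Reachable.refl _

lemma conn_pair {α : Type} (G : SimpleGraph α) {a b : α} (h : G.Adj a b) :
    (G.induce ({a, b} : Set α)).Connected := by
  rw [SimpleGraph.connected_iff_exists_forall_reachable]
  refine ⟨⟨a, Or.inl rfl⟩, ?_⟩
  rintro ⟨w, hw⟩
  rcases hw with rfl | hw
  · exact SimpleGraph.Reachable.refl _
  · have : w = b := hw
    subst this
    have h2 : (G.induce ({a, w} : Set α)).Adj ⟨a, Or.inl rfl⟩ ⟨w, Or.inr rfl⟩ := h
    exact h2.reachable

/-- a permutation without fixed points and without cycles of length two -/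
lemma exists_perm (S : Type) [Fintype S] (hS : 3 ≤ Fintype.card S) :
    ∃ σ : Equiv.Perm S, ∀ i, σ i ≠ i ∧ σ (σ i) ≠ i := by
  obtain ⟨k, hk⟩ : ∃ k, Fintype.card S = k + 3 := ⟨Fintype.card S - 3, by omega⟩
  let e : S ≃ Fin (k + 3) := (Fintype.equivFin S).trans (finCongr hk)
  have hr : ∀ i : Fin (k + 3), finRotate (k + 3) i ≠ i ∧
      finRotate (k + 3) (finRotate (k + 3) i) ≠ i := by
    intro i
    rw [finRotate_apply, finRotate_apply]
    have hi := i.2
    constructor
    · intro h
      have h1 := congrArg Fin.val h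
      rw [Fin.val_add_one] at h1
      split_ifs at h1 with h2
      · rw [h2] at h1
        simp at h1
      · omega
    · intro h
      have h1 := congrArg Fin.val h
      rw [Fin.val_add_one] at h1
      split_ifs at h1 with h2
      · have h3 := congrArg Fin.val h2
        rw [Fin.val_add_one] at h3
        split_ifs at h3 with h4
        · simp at h3
        · simp only [Fin.val_last] at h3
          omega
      · rw [Fin.val_add_one] at h1
        split_ifs at h1 with h4
        · rw [h4] at h1
          simp at h1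
        · omega
  refine ⟨e.trans ((finRotate (k + 3)).trans e.symm), fun i => ⟨?_, ?_⟩⟩
  · intro h
    apply (hr (e i)).1
    have := congrArg e h
    simp at this
  · intro h
    apply (hr (e i)).2
    have := congrArg e h
    simpa using this

end Pool.Agent.J4.H77.HW
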