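import Pool.Agent.J4.H77.HW.Direct

set_option autoImplicit false

/-! Clique minors of direct products: the branch sets. -/

namespace Pool.Agent.J4.H77.HW

/-- a model of `K_m` -/
def KModel {V : Type} (G : SimpleGraph V) (m : ℕ) (B : Fin m → Set V) : Prop :=
  (∀ i, (G.induce (B i)).Connected) ∧ (∀ i j, i ≠ j → Disjoint (B i) (B j)) ∧
    ∀ i j, i ≠ j → ∃ u ∈ B i, ∃ v ∈ B j, G.Adj u v

variable {V W : Type} {G : SimpleGraph V} {H : SimpleGraph W}

lemma assemble {m : ℕ} {B : Fin m → Set V} (hB : KModel G m B) {h0 h1 : W} (h01 : H.Adj h0 h1)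
    (w : H.Walk h0 h0) (hw : ¬ Even w.length) (D : Fin m → Set (V × W))
    (hN : ∀ i, ¬ (B i).Subsingleton → D i = B i ×ˢ {h | H.Reachable h0 h})
    (hS1 : ∀ i, (B i).Subsingleton → ((dprod G H).induce (D i)).Connected)
    (hS2 : ∀ i, (B i).Subsingleton → ∀ x ∈ D i, ∃ j, (B j).Subsingleton ∧ x.1 ∈ B j)
    (hS3 : ∀ i, (B i).Subsingleton → ∃ t, (t = h0 ∨ t = h1) ∧ ∀ v ∈ B i, (v, t) ∈ D i)
    (hS4 : ∀ i j, (B i).Subsingleton → (B j).Subsingleton → i ≠ j → Disjoint (D i) (D j))
    (hS5 : ∀ i j, (B i).Subsingleton → (B j).Subsingleton → i ≠ j →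
      ∃ u ∈ D i, ∃ v ∈ D j, (dprod G H).Adj u v) : KModel (dprod G H) m D := by
  obtain ⟨hB1, hB2, hB3⟩ := hB
  have r0 : h0 ∈ {h | H.Reachable h0 h} := SimpleGraph.Reachable.refl _
  have r1 : h1 ∈ {h | H.Reachable h0 h} := h01.reachable
  have mixed : ∀ i j, (B i).Subsingleton → ¬ (B j).Subsingleton → Disjoint (D i) (D j) := by
    intro i j hi hj
    rw [Set.disjoint_left]
    intro x hx hx2
    obtain ⟨l, hl, hxl⟩ := hS2 i hi x hx
    rw [hN j hj] at hx2
    have hlj : l ≠ j := by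
      rintro rfl
      exact hj hl
    exact Set.disjoint_left.mp (hB2 l j hlj) hxl hx2.1
  have mixedA : ∀ i j, (B i).Subsingleton → ¬ (B j).Subsingleton →
      ∃ u ∈ D i, ∃ v ∈ D j, (dprod G H).Adj u v := by
    intro i j hi hj
    have hij : i ≠ j := by
      rintro rfl
      exact hj hi
    obtain ⟨u, hu, v, hv, huv⟩ := hB3 i j hij
    obtain ⟨t, ht, ht2⟩ := hS3 i hi
    rcases ht with rfl | rfl
    · refine ⟨(u, t), ht2 u hu, (v, h1), ?_, huv, h01⟩
      rw [hN j hj]
      exact ⟨hv, r1⟩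
    · refine ⟨(u, t), ht2 u hu, (v, h0), ?_, huv, h01.symm⟩
      rw [hN j hj]
      exact ⟨hv, r0⟩
  refine ⟨?_, ?_, ?_⟩
  · intro i
    by_cases hi : (B i).Subsingleton
    · exact hS1 i hi
    · rw [hN i hi]
      refine conn_prod (B i) (hB1 i) ?_ w hw
      intro g hg
      rw [Set.not_subsingleton_iff] at hi
      obtain ⟨g', hg', hne⟩ := hi.exists_ne g
      obtain ⟨p⟩ := (hB1 i).preconnected ⟨g, hg⟩ ⟨g', hg'⟩
      cases p with
      | nil => exact absurd rfl hne
      | @cons _ z _ h p => exact ⟨z.1, z.2, h⟩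
  · intro i j hij
    by_cases hi : (B i).Subsingleton
    · by_cases hj : (B j).Subsingleton
      · exact hS4 i j hi hj hij
      · exact mixed i j hi hj
    · by_cases hj : (B j).Subsingleton
      · exact (mixed j i hj hi).symm
      · rw [hN i hi, hN j hj, Set.disjoint_left]
        intro x hx hx2
        exact Set.disjoint_left.mp (hB2 i j hij) hx.1 hx2.1
  · intro i j hij
    by_cases hi : (B i).Subsingleton
    · by_cases hj : (B j).Subsingleton
      · exact hS5 i j hi hj hij
      · exact mixedA i j hi hj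
    · by_cases hj : (B j).Subsingleton
      · obtain ⟨u, hu, v, hv, huv⟩ := mixedA j i hj hi
        exact ⟨v, hv, u, hu, huv.symm⟩
      · obtain ⟨u, hu, v, hv, huv⟩ := hB3 i j hij
        refine ⟨(u, h0), ?_, (v, h1), ?_, huv, h01⟩
        · rw [hN i hi]; exact ⟨hu, r0⟩
        · rw [hN j hj]; exact ⟨hv, r1⟩

/-- **Clique minors of direct products.** -/
theorem minor_dprod (hH : ¬ H.Colorable 2) {m : ℕ} {B : Fin m → Set V} (hB : KModel G m B) :
    ∃ D, KModel (dprod G H) m D := by
  classical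
  rw [SimpleGraph.two_colorable_iff_forall_loop_even] at hH
  simp only [not_forall] at hH
  obtain ⟨h0, w, hw⟩ := hH
  obtain ⟨h1, h01⟩ : ∃ h1, H.Adj h0 h1 := by
    cases w with
    | nil => exact absurd (by simp) hw
    | cons h p => exact ⟨_, h⟩
  have hne : h0 ≠ h1 := h01.ne
  obtain ⟨hB1, hB2, hB3⟩ := id hB
  have hg : ∀ i, ∃ g, g ∈ B i := fun i => by
    obtain ⟨⟨u, hu⟩⟩ := (hB1 i).nonempty
    exact ⟨u, hu⟩
  choose g hg using hg
  let S := {i : Fin m // (B i).Subsingleton}
  have hgS : ∀ i, (B i).Subsingleton → ∀ v ∈ B i, v = g i := fun i hi v hv => hi hv (hg i)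
  have hadj : ∀ i j, (B i).Subsingleton → (B j).Subsingleton → i ≠ j → G.Adj (g i) (g j) := by
    intro i j hi hj hij
    obtain ⟨u, hu, v, hv, huv⟩ := hB3 i j hij
    rwa [hgS i hi u hu, hgS j hj v hv] at huv
  have hginj : ∀ i j, g i = g j → i = j := by
    intro i j h
    by_contra hij
    exact Set.disjoint_left.mp (hB2 i j hij) (hg i) (h ▸ hg j)
  rcases le_or_gt 3 (Fintype.card S) with hc | hc
  · obtain ⟨σ, hσ⟩ := exists_perm S hc
    have hσ1 : ∀ i : S, (σ i).1 ≠ i.1 := fun i h => (hσ i).1 (Subtype.ext h)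
    let D : Fin m → Set (V × W) := fun i =>
      if h : (B i).Subsingleton then {(g i, h0), (g (σ ⟨i, h⟩).1, h1)}
      else B i ×ˢ {h | H.Reachable h0 h}
    have hDS : ∀ i (h : (B i).Subsingleton), D i = {(g i, h0), (g (σ ⟨i, h⟩).1, h1)} :=
      fun i h => dif_pos h
    refine ⟨D, assemble hB h01 w hw D (fun i h => dif_neg h) ?_ ?_ ?_ ?_ ?_⟩
    · intro i hi
      rw [hDS i hi]
      apply conn_pair
      exact ⟨hadj i _ hi (σ ⟨i, hi⟩).2 (hσ1 ⟨i, hi⟩).symm, h01⟩
    · intro i hi x hx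
      rw [hDS i hi] at hx
      rcases hx with rfl | hx
      · exact ⟨i, hi, hg i⟩
      · have : x = (g (σ ⟨i, hi⟩).1, h1) := hx
        subst this
        exact ⟨_, (σ ⟨i, hi⟩).2, hg _⟩
    · intro i hi
      refine ⟨h0, Or.inl rfl, fun v hv => ?_⟩
      rw [hDS i hi, hgS i hi v hv]
      exact Or.inl rfl
    · intro i j hi hj hij
      rw [hDS i hi, hDS j hj, Set.disjoint_left]
      intro x hx hx2
      rcases hx with rfl | hx
      · rcases hx2 with h | h
        · exact hij (hginj i j (Prod.mk.inj h).1)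
        · exact hne (Prod.mk.inj h).2
      · have : x = (g (σ ⟨i, hi⟩).1, h1) := hx
        subst this
        rcases hx2 with h | h
        · exact hne (Prod.mk.inj h).2.symm
        · have h2 := hginj _ _ (Prod.mk.inj h).1
          have h3 := σ.injective (Subtype.ext h2)
          exact hij (congrArg Subtype.val h3)
    · intro i j hi hj hij
      by_cases h : (⟨i, hi⟩ : S) = σ ⟨j, hj⟩
      · -- use the other pair
        refine ⟨(g (σ ⟨i, hi⟩).1, h1), ?_, (g j, h0), ?_, ?_, h01.symm⟩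
        · rw [hDS i hi]; exact Or.inr rfl
        · rw [hDS j hj]; exact Or.inl rfl
        · refine hadj _ _ (σ ⟨i, hi⟩).2 hj ?_
          intro h2
          apply (hσ ⟨j, hj⟩).2
          rw [← h]
          exact Subtype.ext h2
      · refine ⟨(g i, h0), ?_, (g (σ ⟨j, hj⟩).1, h1), ?_, ?_, h01⟩
        · rw [hDS i hi]; exact Or.inl rfl
        · rw [hDS j hj]; exact Or.inr rfl
        · refine hadj _ _ hi (σ ⟨j, hj⟩).2 ?_
          intro h2
          exact h (Subtype.ext h2)
  · have hcard : Fintype.card S ≤ Fintype.card Bool := by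
      rw [Fintype.card_bool]
      omega
    obtain ⟨τ⟩ := Function.Embedding.nonempty_of_card_le hcard
    let t : Bool → W := fun b => if b then h0 else h1
    have ht : ∀ b b', b ≠ b' → H.Adj (t b) (t b') := by
      intro b b' hb
      cases b <;> cases b'
      · exact absurd rfl hb
      · exact h01.symm
      · exact h01
      · exact absurd rfl hb
    let D : Fin m → Set (V × W) := fun i =>
      if h : (B i).Subsingleton then {(g i, t (τ ⟨i, h⟩))}
      else B i ×ˢ {h | H.Reachable h0 h}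
    have hDS : ∀ i (h : (B i).Subsingleton), D i = {(g i, t (τ ⟨i, h⟩))} := fun i h => dif_pos h
    refine ⟨D, assemble hB h01 w hw D (fun i h => dif_neg h) ?_ ?_ ?_ ?_ ?_⟩
    · intro i hi
      rw [hDS i hi]
      exact conn_one _ _
    · intro i hi x hx
      rw [hDS i hi] at hx
      have : x = (g i, t (τ ⟨i, hi⟩)) := hx
      subst this
      exact ⟨i, hi, hg i⟩
    · intro i hi
      refine ⟨t (τ ⟨i, hi⟩), ?_, fun v hv => ?_⟩
      · cases τ ⟨i, hi⟩
        · exact Or.inr rfl
        · exact Or.inl rfl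
      · rw [hDS i hi, hgS i hi v hv]
        rfl
    · intro i j hi hj hij
      rw [hDS i hi, hDS j hj, Set.disjoint_singleton]
      intro h
      exact hij (hginj i j (Prod.mk.inj h).1)
    · intro i j hi hj hij
      refine ⟨_, by rw [hDS i hi]; rfl, _, by rw [hDS j hj]; rfl, hadj i j hi hj hij, ht _ _ ?_⟩
      intro h
      exact hij (congrArg Subtype.val (τ.injective h))

end Pool.Agent.J4.H77.HW
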