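import Pool.Agent.J4.H77.HW.DirectMain

set_option autoImplicit false

/-! # Hadwiger's conjecture passes to direct products with arbitrary graphs

In the direct product `G × H` (also called tensor or categorical product) two pairs are adjacent if
they are adjacent in both coordinates.  The chromatic number of `G × H` is at most that of `G` and
that of `H`; by the counterexamples to Hedetniemi's conjecture it may be smaller than both.

If `K_m` is a minor of `G` and `H` is not bipartite, then `K_m` is a minor of `G × H`.  Hence, if
Hadwiger's conjecture, or its off-by-one form Q1, or any weaker form, holds for `G`, then it holds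
for the product of `G` with any graph.  So both factors of a product which is a counterexample are
counterexamples.

Proof.  Let `B_1, …, B_m` be the branch sets in `G`.  If `B_i` has at least two vertices, then
`B_i × C` is connected for each component `C` of `H` which is not bipartite (walk along an odd closed
walk of `H` and to and fro along an edge of `G`).  The other branch sets `{g_i}` form a clique.  If
there are at least three of them, take a permutation `σ` of them without fixed points and without
cycles of length two, an edge `ab` of `H`, and the sets `{(g_i, a), (g_{σ i}, b)}`. -/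

namespace Pool.Agent.Results.MP_b47bfb_co.DirectProducts

/-- `K_m` is a minor of `G`. -/
def HasCliqueMinor {V : Type} (G : SimpleGraph V) (m : ℕ) : Prop :=
  ∃ B : Fin m → Set V, (∀ i, (G.induce (B i)).Connected) ∧
    (∀ i j, i ≠ j → Disjoint (B i) (B j)) ∧
    ∀ i j, i ≠ j → ∃ u ∈ B i, ∃ v ∈ B j, G.Adj u v

/-- The direct product: `(g, h)` and `(g', h')` are adjacent if `g` and `g'` are adjacent in `G` and
`h` and `h'` are adjacent in `H`. -/
def directProduct {V W : Type} (G : SimpleGraph V) (H : SimpleGraph W) :
    SimpleGraph (V × W) where
  Adj x y := G.Adj x.1 y.1 ∧ H.Adj x.2 y.2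
  symm := ⟨fun _ _ h => ⟨h.1.symm, h.2.symm⟩⟩
  loopless := ⟨fun _ h => h.1.ne rfl⟩

/-- Hadwiger's conjecture for `G` with the function `φ`: if `G` is not `k`-colourable, then
`K_{φ(k)}` is a minor of `G`.  For `φ k = k + 1` this is Hadwiger's conjecture for `G`, for
`φ k = k` it is the off-by-one form Q1. -/
def HadwigerWith {V : Type} (φ : ℕ → ℕ) (G : SimpleGraph V) : Prop :=
  ∀ k : ℕ, ¬ G.Colorable k → HasCliqueMinor G (φ k)

/-- **Clique minors of direct products.** Let `G` and `H` be graphs.  If `K_m` is a minor of `G` and
`H` is not bipartite, then `K_m` is a minor of the direct product of `G` and `H`.  If `φ k ≤ k + 1`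
for all `k` and the form of Hadwiger's conjecture with the function `φ` holds for `G`, then it holds
for the direct product of `G` with every graph `H`; in particular this is true for Hadwiger's
conjecture and for its off-by-one form Q1. -/
theorem result {V W : Type} (G : SimpleGraph V) (H : SimpleGraph W) :
    (∀ m : ℕ, HasCliqueMinor G m → ¬ H.Colorable 2 →
      HasCliqueMinor (directProduct G H) m) ∧
    (∀ φ : ℕ → ℕ, (∀ k, φ k ≤ k + 1) → HadwigerWith φ G →
      HadwigerWith φ (directProduct G H)) := by
  have hmain : ∀ m : ℕ, HasCliqueMinor G m → ¬ H.Colorable 2 →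
      HasCliqueMinor (directProduct G H) m := by
    rintro m ⟨B, hB⟩ hH
    obtain ⟨D, hD⟩ := Pool.Agent.J4.H77.HW.minor_dprod (G := G) hH hB
    exact ⟨D, hD⟩
  refine ⟨hmain, ?_⟩
  intro φ hφ hG k hk
  have hGk : ¬ G.Colorable k := by
    rintro ⟨c⟩
    exact hk ⟨SimpleGraph.Coloring.mk (fun x => c x.1) (fun {x y} h => c.valid h.1)⟩
  rcases le_or_gt 2 k with h2 | h2
  · refine hmain _ (hG k hGk) ?_
    intro hc
    apply hk
    obtain ⟨c⟩ := hc.mono h2
    exact ⟨SimpleGraph.Coloring.mk (fun x => c x.2) (fun {x y} h => c.valid h.2)⟩
  · -- `k ≤ 1`: a vertex or an edge is enough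
    have hle := hφ k
    have hsmall : ∀ m, m ≤ k + 1 → HasCliqueMinor (directProduct G H) m := by
      intro m hm
      rcases Nat.eq_zero_or_pos k with rfl | hk1
      · -- there is a vertex
        have hne : Nonempty (V × W) := by
          by_contra hemp
          rw [not_nonempty_iff] at hemp
          exact hk ⟨SimpleGraph.Coloring.mk (fun x => (hemp.false x).elim)
            (fun {x y} _ => (hemp.false x).elim)⟩
        obtain ⟨x⟩ := hne
        refine ⟨fun _ => {x}, fun _ => Pool.Agent.J4.H77.HW.conn_one _ x, ?_, ?_⟩
        · intro i j hij
          exact absurd (Fin.ext (by omega)) hij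
        · intro i j hij
          exact absurd (Fin.ext (by omega)) hij
      · -- there is an edge
        have hk1' : k = 1 := by omega
        subst hk1'
        obtain ⟨x, y, hxy⟩ : ∃ x y, (directProduct G H).Adj x y := by
          by_contra hcon
          push Not at hcon
          exact hk ⟨SimpleGraph.Coloring.mk (fun _ => 0) (fun {x y} h => absurd h (hcon x y))⟩
        refine ⟨fun i => {if (i : ℕ) = 0 then x else y},
          fun i => Pool.Agent.J4.H77.HW.conn_one _ _, ?_, ?_⟩
        · intro i j hij
          have hij' : (i : ℕ) ≠ j := fun h => hij (Fin.ext h)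
          by_cases h : (i : ℕ) = 0
          · have h' : (j : ℕ) ≠ 0 := by omega
            simp only [h, h', if_true, if_false, Set.disjoint_singleton]
            exact hxy.ne
          · have h' : (j : ℕ) = 0 := by omega
            simp only [h, h', if_true, if_false, Set.disjoint_singleton]
            exact hxy.ne.symm
        · intro i j hij
          have hij' : (i : ℕ) ≠ j := fun h => hij (Fin.ext h)
          by_cases h : (i : ℕ) = 0
          · have h' : (j : ℕ) ≠ 0 := by omega
            simp only [h, h', if_true, if_false]
            exact ⟨x, rfl, y, rfl, hxy⟩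
          · have h' : (j : ℕ) = 0 := by omega
            simp only [h, h', if_true, if_false]
            exact ⟨y, rfl, x, rfl, hxy.symm⟩
    exact hsmall _ hle

end Pool.Agent.Results.MP_b47bfb_co.DirectProducts
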