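import Mathlib

set_option autoImplicit false

/-! Clique minors of stable Kneser graphs. -/

namespace Pool.Agent.J4.H77.HW

open Finset

/-- `K_m` is a minor of `G`, with all branch sets inside `V`. -/
def Model {α : Type} (G : SimpleGraph α) (V : Set α) (m : ℕ) : Prop :=
  ∃ B : Fin m → Set α, (∀ i, B i ⊆ V) ∧ (∀ i, (G.induce (B i)).Connected) ∧
    (∀ i j, i ≠ j → Disjoint (B i) (B j)) ∧
    ∀ i j, i ≠ j → ∃ u ∈ B i, ∃ v ∈ B j, G.Adj u v

lemma Model.mono {α : Type} {G : SimpleGraph α} {V W : Set α} {m : ℕ} (h : Model G V m)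
    (hVW : V ⊆ W) : Model G W m := by
  obtain ⟨B, h1, h2, h3, h4⟩ := h
  exact ⟨B, fun i => (h1 i).trans hVW, h2, h3, h4⟩

lemma Model.le {α : Type} {G : SimpleGraph α} {V : Set α} {m m' : ℕ} (h : Model G V m)
    (hm : m' ≤ m) : Model G V m' := by
  obtain ⟨B, h1, h2, h3, h4⟩ := h
  exact ⟨fun i => B (Fin.castLE hm i), fun i => h1 _, fun i => h2 _,
    fun i j hij => h3 _ _ (by simpa [Fin.ext_iff] using hij),
    fun i j hij => h4 _ _ (by simpa [Fin.ext_iff] using hij)⟩

/-- one more branch set: a connected set outside `V` which dominates `V` -/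
lemma Model.succ {α : Type} {G : SimpleGraph α} {V R W : Set α} {m : ℕ} (h : Model G V m)
    (hVW : V ⊆ W) (hRW : R ⊆ W) (hR : (G.induce R).Connected) (hd : Disjoint R V)
    (hdom : ∀ v ∈ V, ∃ r ∈ R, G.Adj v r) : Model G W (m + 1) := by
  obtain ⟨B, h1, h2, h3, h4⟩ := h
  have key : ∀ i : Fin m, ∃ u ∈ B i, ∃ v ∈ R, G.Adj u v := by
    intro i
    obtain ⟨⟨u, hu⟩⟩ := (h2 i).nonempty
    obtain ⟨r, hr, hur⟩ := hdom u (h1 i hu)
    exact ⟨u, hu, r, hr, hur⟩
  refine ⟨Fin.cons R B, ?_, ?_, ?_, ?_⟩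
  · intro i
    refine Fin.cases ?_ (fun j => ?_) i
    · simpa using hRW
    · simpa using (h1 j).trans hVW
  · intro i
    refine Fin.cases ?_ (fun j => ?_) i
    · exact hR
    · exact h2 j
  · intro i j
    refine Fin.cases ?_ (fun i' => ?_) i <;> refine Fin.cases ?_ (fun j' => ?_) j
    · intro h; exact absurd rfl h
    · intro _
      simpa using hd.mono_right (h1 j')
    · intro _
      simpa using (hd.mono_right (h1 i')).symm
    · intro h
      simpa using h3 i' j' (fun e => h (by rw [e]))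
  · intro i j
    refine Fin.cases ?_ (fun i' => ?_) i <;> refine Fin.cases ?_ (fun j' => ?_) j
    · intro h; exact absurd rfl h
    · intro _
      obtain ⟨u, hu, v, hv, huv⟩ := key j'
      exact ⟨v, by simpa using hv, u, by simpa using hu, huv.symm⟩
    · intro _
      obtain ⟨u, hu, v, hv, huv⟩ := key i'
      exact ⟨u, by simpa using hu, v, by simpa using hv, huv⟩
    · intro h
      simpa using h4 i' j' (fun e => h (by rw [e]))

/-- the cyclic gaps of `S ⊆ {1, ..., n}` are at least `s` -/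
def Sep (n s : ℕ) (S : Finset ℕ) : Prop := ∀ i ∈ S, ∀ j ∈ S, i < j → i + s ≤ j ∧ j + s ≤ i + n

/-- the `s`-stable `k`-subsets of the cycle `1, ..., n` -/
def Stab (n k s : ℕ) (S : Finset ℕ) : Prop := S ⊆ Icc 1 n ∧ S.card = k ∧ Sep n s S

/-- the disjointness graph -/
def KG : SimpleGraph (Finset ℕ) where
  Adj S T := S ≠ T ∧ Disjoint S T
  symm := ⟨fun _ _ h => ⟨h.1.symm, h.2.symm⟩⟩
  loopless := ⟨fun _ h => h.1 rfl⟩

lemma kg_adj {S T : Finset ℕ} (hS : S.Nonempty) (h : Disjoint S T) : KG.Adj S T := by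
  refine ⟨?_, h⟩
  rintro rfl
  rw [disjoint_self] at h
  exact hS.ne_empty h

/-- a neighbour which contains `n` -/
lemma op1 {n k s : ℕ} (hs : 2 ≤ s) (hk : 1 ≤ k) (hn : s ≤ n) {S : Finset ℕ} (hS : Stab n k s S)
    (hnS : n ∉ S) : ∃ T, Stab n k s T ∧ n ∈ T ∧ Disjoint S T := by
  obtain ⟨hsub, hcard, hsep⟩ := hS
  have hne : S.Nonempty := by
    rw [← card_pos]; omega
  have hmM := hsep (S.min' hne) (S.min'_mem hne) (S.max' hne) (S.max'_mem hne)
  have hm1 := (mem_Icc.mp (hsub (S.min'_mem hne))).1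
  have hM1 := (mem_Icc.mp (hsub (S.max'_mem hne))).2
  have hMn : S.max' hne ≠ n := fun h => hnS (h ▸ S.max'_mem hne)
  have hmle : ∀ x ∈ S, S.min' hne ≤ x := fun x hx => S.min'_le x hx
  have hMle : ∀ x ∈ S, x ≤ S.max' hne := fun x hx => S.le_max' x hx
  have hMgap : ∀ x ∈ S, x ≠ S.max' hne → x + s ≤ S.max' hne := by
    intro x hx hx2
    exact (hsep x hx _ (S.max'_mem hne) (lt_of_le_of_ne (hMle x hx) hx2)).1
  have hmM' := hMle _ (S.min'_mem hne)
  generalize hmdef : S.min' hne = m at *
  generalize hMdef : S.max' hne = M at *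
  have hMS : M ∈ S := by rw [← hMdef]; exact S.max'_mem hne
  obtain ⟨a, ha1, ha2, ha3, ha4⟩ : ∃ a, 1 ≤ a ∧ a + 1 ≤ s ∧ s ≤ m + a ∧ M + a ≤ n := by
    refine ⟨max 1 (s - m), by omega, by omega, by omega, ?_⟩
    rcases lt_or_ge m M with h | h
    · have := hmM h
      omega
    · omega
  have himg : ∀ y, y ∈ (S.erase M).image (· + a) ↔ ∃ x ∈ S, x ≠ M ∧ x + a = y := by
    intro y
    simp only [mem_image, mem_erase]
    constructor
    · rintro ⟨x, ⟨h1, h2⟩, h3⟩; exact ⟨x, h2, h1, h3⟩
    · rintro ⟨x, h1, h2, h3⟩; exact ⟨x, ⟨h2, h1⟩, h3⟩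
  have hnimg : n ∉ (S.erase M).image (· + a) := by
    rw [himg]
    rintro ⟨x, hx, hx2, hx3⟩
    have := hMgap x hx hx2
    omega
  refine ⟨insert n ((S.erase M).image (· + a)), ⟨?_, ?_, ?_⟩, mem_insert_self _ _, ?_⟩
  · intro y hy
    rw [mem_insert, himg] at hy
    rw [mem_Icc]
    rcases hy with rfl | ⟨x, hx, hx2, rfl⟩
    · omega
    · have := hMgap x hx hx2
      omega
  · rw [card_insert_of_notMem hnimg, card_image_of_injective _ (add_left_injective a),
      card_erase_of_mem hMS]
    omega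
  · intro i hi j hj hij
    rw [mem_insert, himg] at hi hj
    rcases hi with rfl | ⟨x, hx, hx2, rfl⟩
    · rcases hj with rfl | ⟨y, hy, hy2, rfl⟩
      · omega
      · have := hMgap y hy hy2
        omega
    · rcases hj with rfl | ⟨y, hy, hy2, rfl⟩
      · have := hMgap x hx hx2
        have := hmle x hx
        omega
      · have := hsep x hx y hy (by omega)
        omega
  · rw [disjoint_left]
    intro y hy hy2
    rw [mem_insert, himg] at hy2
    rcases hy2 with rfl | ⟨x, hx, hx2, hx3⟩
    · exact hnS hy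
    · have := hsep x hx y hy (by omega)
      omega

/-- a path of length two from `T` to a set which contains one more multiple of `s` -/
lemma op2 {n k s : ℕ} (hs : 2 ≤ s) {T : Finset ℕ} (hT : Stab n k s T)
    (hnT : n ∈ T) (j : ℕ) (hj : j + 1 < k) (hmul : ∀ i, 1 ≤ i → i ≤ j → i * s ∈ T) :
    ∃ W T', Stab n k s W ∧ 1 ∈ W ∧ n - s + 1 ∈ W ∧ Disjoint T W ∧
      Stab n k s T' ∧ n ∈ T' ∧ Disjoint W T' ∧ ∀ i, 1 ≤ i → i ≤ j + 1 → i * s ∈ T' := by
  obtain ⟨hsub, hcard, hsep⟩ := hT
  have hne : (T.erase n).Nonempty := by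
    rw [← card_pos, card_erase_of_mem hnT]; omega
  have hT0 : ∀ x, x ∈ T.erase n → s ≤ x ∧ x + s ≤ n := by
    intro x hx
    rw [mem_erase] at hx
    have h1 := (mem_Icc.mp (hsub hx.2)).2
    have := hsep x hx.2 n hnT (lt_of_le_of_ne h1 hx.1)
    omega
  have hPmem := (T.erase n).max'_mem hne
  have hPle : ∀ x ∈ T.erase n, x ≤ (T.erase n).max' hne := fun x hx => le_max' _ x hx
  generalize hP : (T.erase n).max' hne = P at *
  have hPT := (mem_erase.mp hPmem).2
  have hPn := hT0 P hPmem
  have hQ : ∀ x, x ∈ (T.erase n).erase P → x ∈ T ∧ s ≤ x ∧ x + s ≤ P ∧ x ≠ n := by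
    intro x hx
    rw [mem_erase] at hx
    have h1 := hT0 x hx.2
    have h2 := hPle x hx.2
    have h3 := (mem_erase.mp hx.2)
    have := hsep x h3.2 P hPT (lt_of_le_of_ne h2 hx.1)
    exact ⟨h3.2, h1.1, this.1, h3.1⟩
  -- P is large
  have hPbig : j * s < P := by
    by_contra hcon
    push Not at hcon
    have h1 : (T.erase n).card ≤ (Icc 1 j).card := by
      apply card_le_card_of_injOn (fun x => x / s)
      · intro x hx
        have h2 := hT0 x hx
        have h3 := hPle x hx
        simp only [coe_Icc, Set.mem_Icc]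
        constructor
        · exact (Nat.one_le_div_iff (by omega)).mpr h2.1
        · calc x / s ≤ (j * s) / s := Nat.div_le_div_right (by omega)
            _ = j := Nat.mul_div_cancel _ (by omega)
      · intro x hx y hy hxy
        by_contra hne'
        have hx' := (mem_erase.mp hx).2
        have hy' := (mem_erase.mp hy).2
        simp only at hxy
        rcases lt_or_gt_of_ne hne' with h | h
        · have h4 := (hsep x hx' y hy' h).1
          have : x / s + 1 ≤ y / s := by
            rw [← Nat.add_div_right _ (by omega : 0 < s)]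
            exact Nat.div_le_div_right h4
          omega
        · have h4 := (hsep y hy' x hx' h).1
          have : y / s + 1 ≤ x / s := by
            rw [← Nat.add_div_right _ (by omega : 0 < s)]
            exact Nat.div_le_div_right h4
          omega
    rw [card_erase_of_mem hnT, Nat.card_Icc] at h1
    omega
  have h0Q : 0 ∉ (T.erase n).erase P := by
    intro h
    have := hQ 0 h
    omega
  have hZ : ∀ x, x ∈ insert 0 ((T.erase n).erase P) ↔ x = 0 ∨ x ∈ (T.erase n).erase P :=
    fun x => mem_insert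
  have hZb : ∀ x ∈ insert 0 ((T.erase n).erase P), x + s ≤ P := by
    intro x hx
    rcases (hZ x).mp hx with rfl | h
    · omega
    · exact (hQ x h).2.2.1
  have hZs : ∀ x ∈ insert 0 ((T.erase n).erase P), ∀ y ∈ insert 0 ((T.erase n).erase P),
      x < y → x + s ≤ y ∧ y + s ≤ x + n := by
    intro x hx y hy hxy
    rcases (hZ y).mp hy with rfl | h2
    · omega
    rcases (hZ x).mp hx with rfl | h1
    · have := hQ y h2
      omega
    · exact hsep x (hQ x h1).1 y (hQ y h2).1 hxy
  have hZcard : (insert 0 ((T.erase n).erase P)).card = k - 1 := by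
    rw [card_insert_of_notMem h0Q, card_erase_of_mem hPmem, card_erase_of_mem hnT]
    omega
  have hZT : ∀ x ∈ insert 0 ((T.erase n).erase P), ∀ y ∈ T, x < y → x + s ≤ y := by
    intro x hx y hy hxy
    rcases (hZ x).mp hx with rfl | h1
    · by_cases hyn : y = n
      · omega
      · have := hT0 y (mem_erase.mpr ⟨hyn, hy⟩)
        omega
    · exact (hsep x (hQ x h1).1 y hy hxy).1
  have h0Z : 0 ∈ insert 0 ((T.erase n).erase P) := mem_insert_self _ _
  have hmulZ : ∀ i, i ≤ j → i * s ∈ insert 0 ((T.erase n).erase P) := by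
    intro i hi
    rcases Nat.eq_zero_or_pos i with rfl | h
    · simp
    · have h1 := hmul i h hi
      have h2 : i * s ≤ j * s := Nat.mul_le_mul_right _ hi
      refine mem_insert_of_mem (mem_erase.mpr ⟨by omega, mem_erase.mpr ⟨by omega, h1⟩⟩)
  generalize hZdef : insert 0 ((T.erase n).erase P) = Z at *
  clear hZ
  have hWn : n - s + 1 ∉ Z.image (· + 1) := by
    intro h
    obtain ⟨x, hx, hx2⟩ := mem_image.mp h
    have := hZb x hx
    omega
  have hTn : n ∉ Z.image (· + s) := by
    intro h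
    obtain ⟨x, hx, hx2⟩ := mem_image.mp h
    have := hZb x hx
    omega
  refine ⟨insert (n - s + 1) (Z.image (· + 1)), insert n (Z.image (· + s)), ⟨?_, ?_, ?_⟩, ?_,
    mem_insert_self _ _, ?_, ⟨?_, ?_, ?_⟩, mem_insert_self _ _, ?_, ?_⟩
  · intro y hy
    rw [mem_insert, mem_image] at hy
    rw [mem_Icc]
    rcases hy with rfl | ⟨x, hx, rfl⟩
    · omega
    · have := hZb x hx
      omega
  · rw [card_insert_of_notMem hWn, card_image_of_injective _ (add_left_injective 1), hZcard]
    omega
  · intro i hi l hl hil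
    rw [mem_insert, mem_image] at hi hl
    rcases hi with rfl | ⟨x, hx, rfl⟩
    · rcases hl with rfl | ⟨y, hy, rfl⟩
      · omega
      · have := hZb y hy
        omega
    · rcases hl with rfl | ⟨y, hy, rfl⟩
      · have := hZb x hx
        omega
      · have := hZs x hx y hy (by omega)
        omega
  · exact mem_insert_of_mem (mem_image.mpr ⟨0, h0Z, rfl⟩)
  · rw [disjoint_left]
    intro y hy hy2
    rw [mem_insert, mem_image] at hy2
    rcases hy2 with rfl | ⟨x, hx, rfl⟩
    · have := hT0 (n - s + 1) (mem_erase.mpr ⟨by omega, hy⟩)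
      omega
    · have := hZT x hx (x + 1) hy (by omega)
      omega
  · intro y hy
    rw [mem_insert, mem_image] at hy
    rw [mem_Icc]
    rcases hy with rfl | ⟨x, hx, rfl⟩
    · omega
    · have := hZb x hx
      omega
  · rw [card_insert_of_notMem hTn, card_image_of_injective _ (add_left_injective s), hZcard]
    omega
  · intro i hi l hl hil
    rw [mem_insert, mem_image] at hi hl
    rcases hi with rfl | ⟨x, hx, rfl⟩
    · rcases hl with rfl | ⟨y, hy, rfl⟩
      · omega
      · have := hZb y hy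
        omega
    · rcases hl with rfl | ⟨y, hy, rfl⟩
      · have := hZb x hx
        omega
      · have := hZs x hx y hy (by omega)
        omega
  · rw [disjoint_left]
    intro y hy hy2
    rw [mem_insert, mem_image] at hy hy2
    rcases hy with rfl | ⟨x, hx, rfl⟩
    · rcases hy2 with h | ⟨z, hz, h⟩
      · omega
      · have := hZb z hz
        omega
    · rcases hy2 with h | ⟨z, hz, h⟩
      · have := hZb x hx
        omega
      · rcases lt_trichotomy x z with h3 | h3 | h3
        · omega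
        · omega
        · have := hZs z hz x hx h3
          omega
  · intro i hi1 hi2
    have h1 := hmulZ (i - 1) (by omega)
    refine mem_insert_of_mem (mem_image.mpr ⟨(i - 1) * s, h1, ?_⟩)
    show (i - 1) * s + s = i * s
    obtain ⟨i', rfl⟩ : ∃ i', i = i' + 1 := ⟨i - 1, by omega⟩
    rw [Nat.add_sub_cancel]
    ring

end Pool.Agent.J4.H77.HW
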