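import Pool.Agent.J4.H77.HW.StableMain

set_option autoImplicit false

/-! # Hadwiger's conjecture for stable Kneser graphs

For `s ≥ 2` and `n ≥ s k` the `s`-stable Kneser graph (vertices: the `k`-subsets of the cycle
`1, …, n` any two elements of which have distance at least `s` on the cycle; edges: the pairs of
disjoint sets) has a `K_{n - s (k - 1)}` minor, and it can be coloured with `n - s (k - 1)` colours.
So it satisfies Hadwiger's conjecture and the off-by-one form Q1.  The same holds for every larger
family of `k`-subsets of `{1, …, n}` whose members have (linear) gaps at least `s`, and, for `s = 2`,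
for every family of `k`-subsets of `{1, …, n}` which contains the `2`-stable ones, that is for all
induced subgraphs of the Kneser graph that contain the Schrijver graph.

Proof: induction on `n`.  The sets which are `s`-stable for `n` but not for `n - 1` induce a
connected graph, and every other set has a neighbour which contains `n`. -/

namespace Pool.Agent.Results.MP_b47bfb_co.StableKneserGraphs

/-- `K_m` is a minor of `G`. -/
def HasCliqueMinor {V : Type} (G : SimpleGraph V) (m : ℕ) : Prop :=
  ∃ B : Fin m → Set V, (∀ i, (G.induce (B i)).Connected) ∧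
    (∀ i j, i ≠ j → Disjoint (B i) (B j)) ∧
    ∀ i j, i ≠ j → ∃ u ∈ B i, ∃ v ∈ B j, G.Adj u v

/-- Hadwiger's conjecture for `G`. -/
def Hadwiger {V : Type} (G : SimpleGraph V) : Prop :=
  ∀ m : ℕ, ¬ G.Colorable m → HasCliqueMinor G (m + 1)

/-- The graph on the family `F` in which two different members are adjacent if they are
disjoint. -/
def kneser (F : Set (Finset ℕ)) : SimpleGraph F where
  Adj S T := S ≠ T ∧ Disjoint S.1 T.1
  symm := ⟨fun _ _ h => ⟨h.1.symm, h.2.symm⟩⟩
  loopless := ⟨fun _ h => h.1 rfl⟩

/-- `S` is an `s`-stable `k`-subset of the cycle `1, …, n`: if `i < j` are elements of `S`, then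
`s ≤ j - i ≤ n - s`. -/
def IsStable (n k s : ℕ) (S : Finset ℕ) : Prop :=
  S ⊆ Finset.Icc 1 n ∧ S.card = k ∧ ∀ i ∈ S, ∀ j ∈ S, i < j → i + s ≤ j ∧ j + s ≤ n + i

/-- **Hadwiger's conjecture for stable Kneser graphs.** Let `s ≥ 2`, `k ≥ 1` and `n ≥ s k`, and let
`F` be a family of `k`-subsets of `{1, …, n}` which contains all the `s`-stable ones.  If `s > 2`,
suppose that any two elements of a member of `F` differ by at least `s`.  Then the graph of `F` has
a colouring with `n - s (k - 1)` colours and a `K_{n - s (k - 1)}` minor, and Hadwiger's conjecture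
holds for it. -/
theorem result (n k s : ℕ) (hs : 2 ≤ s) (hk : 1 ≤ k) (hn : s * k ≤ n) (F : Set (Finset ℕ))
    (hF : ∀ S, IsStable n k s S → S ∈ F)
    (hF' : ∀ S ∈ F, S ⊆ Finset.Icc 1 n ∧ S.card = k ∧
      (s = 2 ∨ ∀ i ∈ S, ∀ j ∈ S, i < j → i + s ≤ j)) :
    (kneser F).Colorable (n - s * (k - 1)) ∧ HasCliqueMinor (kneser F) (n - s * (k - 1)) ∧
      Hadwiger (kneser F) := by
  classical
  have hne : ∀ S ∈ F, S.Nonempty := by
    intro S hS
    rw [← Finset.card_pos, (hF' S hS).2.1]
    omega
  have hsk : s * (k - 1) + s ≤ n := by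
    have : s * (k - 1) + s = s * k := by
      obtain ⟨k', rfl⟩ : ∃ k', k = k' + 1 := ⟨k - 1, by omega⟩
      rw [Nat.add_sub_cancel, Nat.mul_succ]
    omega
  have hcol : (kneser F).Colorable (n - s * (k - 1)) := by
    -- colour `S` by its least element, at most `n - s (k - 1)`
    let c : F → Fin (n - s * (k - 1)) := fun S =>
      ⟨min (S.1.min' (hne S.1 S.2) - 1) (n - s * (k - 1) - 1), by omega⟩
    refine ⟨SimpleGraph.Coloring.mk c ?_⟩
    rintro ⟨S, hS⟩ ⟨T, hT⟩ ⟨_, hd⟩ hc
    simp only at hd
    simp only [c, Fin.mk.injEq] at hc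
    have hSm := Finset.mem_Icc.mp ((hF' S hS).1 (S.min'_mem (hne S hS)))
    have hTm := Finset.mem_Icc.mp ((hF' T hT).1 (T.min'_mem (hne T hT)))
    have hdne : S.min' (hne S hS) ≠ T.min' (hne T hT) := by
      intro h
      exact Finset.disjoint_left.mp hd (S.min'_mem (hne S hS)) (h ▸ T.min'_mem (hne T hT))
    by_cases h2 : s = 2
    · subst h2
      -- both sets are in the last `2 k - 1` integers
      have hbS : ∀ x ∈ S, S.min' (hne S hS) ≤ x := fun x hx => S.min'_le x hx
      have hbT : ∀ x ∈ T, T.min' (hne T hT) ≤ x := fun x hx => T.min'_le x hx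
      have hsub : S ∪ T ⊆ Finset.Icc (n - 2 * (k - 1)) n := by
        intro x hx
        rw [Finset.mem_union] at hx
        rw [Finset.mem_Icc]
        rcases hx with hx | hx
        · have h3 := hbS x hx
          have h4 := Finset.mem_Icc.mp ((hF' S hS).1 hx)
          omega
        · have h3 := hbT x hx
          have h4 := Finset.mem_Icc.mp ((hF' T hT).1 hx)
          omega
      have h5 := Finset.card_le_card hsub
      rw [Finset.card_union_of_disjoint hd, (hF' S hS).2.1, (hF' T hT).2.1, Nat.card_Icc] at h5
      omega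
    · have hSs := (hF' S hS).2.2.resolve_left h2
      have hTs := (hF' T hT).2.2.resolve_left h2
      have h3 := Pool.Agent.J4.H77.HW.min_small (n := n) (by omega)
        (fun x hx => S.min'_le x hx) (fun x hx => (Finset.mem_Icc.mp ((hF' S hS).1 hx)).2)
        (hF' S hS).2.1 hSs hSm.2
      have h4 := Pool.Agent.J4.H77.HW.min_small (n := n) (by omega)
        (fun x hx => T.min'_le x hx) (fun x hx => (Finset.mem_Icc.mp ((hF' T hT).1 hx)).2)
        (hF' T hT).2.1 hTs hTm.2
      omega
  have hmin : ∀ m, m ≤ n - s * (k - 1) → HasCliqueMinor (kneser F) m := by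
    intro m hm
    have h1 := ((Pool.Agent.J4.H77.HW.model' hs hk hn).mono (W := F) (fun S hS => hF S
      ⟨hS.1, hS.2.1, fun i hi j hj hij => by
        have := hS.2.2 i hi j hj hij
        omega⟩)).le hm
    obtain ⟨B, h2, h3, h4⟩ := h1.toInduce
    have hG : Pool.Agent.J4.H77.HW.KG.induce F = kneser F := by
      ext S T
      constructor
      · intro h
        exact ⟨fun e => h.1 (congrArg Subtype.val e), h.2⟩
      · intro h
        exact ⟨fun e => h.1 (Subtype.ext e), h.2⟩
    rw [hG] at h2 h4
    exact ⟨B, h2, h3, h4⟩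
  refine ⟨hcol, hmin _ le_rfl, ?_⟩
  intro m hm
  apply hmin
  by_contra hcon
  exact hm (hcol.mono (by omega))

end Pool.Agent.Results.MP_b47bfb_co.StableKneserGraphs
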