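import Pool.Agent.J4.H77.HW.Stable

set_option autoImplicit false

/-! Clique minors of stable Kneser graphs: the induction on `n`. -/

namespace Pool.Agent.J4.H77.HW

open Finset

/-- the canonical set `{s, 2s, ..., (k-1)s, n}` -/
def star (n k s : ℕ) : Finset ℕ := insert n ((Icc 1 (k - 1)).image (· * s))

lemma star_img {k s y : ℕ} : y ∈ (Icc 1 (k - 1)).image (· * s) ↔
    ∃ i, 1 ≤ i ∧ i ≤ k - 1 ∧ i * s = y := by
  simp only [mem_image, mem_Icc]
  constructor
  · rintro ⟨i, ⟨h1, h2⟩, h3⟩; exact ⟨i, h1, h2, h3⟩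
  · rintro ⟨i, h1, h2, h3⟩; exact ⟨i, ⟨h1, h2⟩, h3⟩

lemma star_le {n k s i : ℕ} (hk : 1 ≤ k) (hn : s * k ≤ n) (hi : i ≤ k - 1) : i * s + s ≤ n := by
  have : (i + 1) * s ≤ k * s := Nat.mul_le_mul_right s (by omega)
  have h2 : (i + 1) * s = i * s + s := by ring
  have h3 : k * s = s * k := by ring
  omega

lemma star_card {n k s : ℕ} (hs : 2 ≤ s) (hk : 1 ≤ k) (hn : s * k ≤ n) :
    (star n k s).card = k := by
  unfold star
  rw [card_insert_of_notMem, card_image_of_injective, Nat.card_Icc]
  · omega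
  · exact mul_left_injective₀ (by omega : s ≠ 0)
  · rw [star_img]
    rintro ⟨i, _, h2, h3⟩
    have := star_le hk hn h2
    omega

lemma star_stab {n k s : ℕ} (hs : 2 ≤ s) (hk : 1 ≤ k) (hn : s * k ≤ n) :
    Stab n k s (star n k s) := by
  refine ⟨?_, star_card hs hk hn, ?_⟩
  · intro y hy
    unfold star at hy
    rw [mem_insert, star_img] at hy
    rw [mem_Icc]
    rcases hy with rfl | ⟨i, h1, h2, rfl⟩
    · have := star_le hk hn (Nat.zero_le (k - 1))
      omega
    · have := star_le hk hn h2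
      have h3 : 1 * s ≤ i * s := Nat.mul_le_mul_right s h1
      omega
  · intro x hx y hy hxy
    unfold star at hx hy
    rw [mem_insert, star_img] at hx hy
    rcases hx with rfl | ⟨i, h1, h2, rfl⟩
    · rcases hy with rfl | ⟨j, h3, h4, rfl⟩
      · omega
      · have := star_le hk hn h4
        omega
    · rcases hy with rfl | ⟨j, h3, h4, rfl⟩
      · have := star_le hk hn h2
        have h3 : 1 * s ≤ i * s := Nat.mul_le_mul_right s h1
        omega
      · have h5 := star_le hk hn h4
        have h6 : i < j := by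
          by_contra hcon
          have : j * s ≤ i * s := Nat.mul_le_mul_right s (by omega)
          omega
        have h7 : (i + 1) * s ≤ j * s := Nat.mul_le_mul_right s (by omega)
        have h8 : (i + 1) * s = i * s + s := by ring
        omega

lemma eq_star {n k s : ℕ} (hs : 2 ≤ s) (hk : 1 ≤ k) (hn : s * k ≤ n) {T : Finset ℕ}
    (hT : Stab n k s T) (hnT : n ∈ T) (hmul : ∀ i, 1 ≤ i → i + 1 ≤ k → i * s ∈ T) :
    T = star n k s := by
  symm
  apply eq_of_subset_of_card_le
  · intro y hy
    unfold star at hy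
    rw [mem_insert, star_img] at hy
    rcases hy with rfl | ⟨i, h1, h2, rfl⟩
    · exact hnT
    · exact hmul i h1 (by omega)
  · rw [hT.2.1, star_card hs hk hn]

/-- the new vertices -/
def Rn (n k s : ℕ) : Set (Finset ℕ) := {S | Stab n k s S ∧ ¬ Stab (n - 1) k s S}

lemma mem_Rn {n k s : ℕ} (hn : 1 ≤ n) {S : Finset ℕ} (hS : Stab n k s S) (h : n ∈ S) :
    S ∈ Rn n k s := by
  refine ⟨hS, fun h2 => ?_⟩
  have := (mem_Icc.mp (h2.1 h)).2
  omega

lemma mem_Rn' {n k s : ℕ} (hs : 2 ≤ s) (hk2 : s < n) {S : Finset ℕ}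
    (hS : Stab n k s S) (h : 1 ∈ S) (h' : n - s + 1 ∈ S) : S ∈ Rn n k s := by
  refine ⟨hS, fun h2 => ?_⟩
  have := h2.2.2 1 h (n - s + 1) h' (by omega)
  omega

lemma reach {n k s : ℕ} (hs : 2 ≤ s) (hk : 1 ≤ k) (hn : s * k ≤ n) (hst : star n k s ∈ Rn n k s) :
    ∀ j : ℕ, ∀ T : Finset ℕ, (hT : T ∈ Rn n k s) → n ∈ T →
      (∀ i, 1 ≤ i → i + j + 1 ≤ k → i * s ∈ T) →
      (KG.induce (Rn n k s)).Reachable ⟨T, hT⟩ ⟨star n k s, hst⟩ := by
  have hn1 : 1 ≤ n := by
    have := star_le hk hn (Nat.zero_le (k - 1))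
    omega
  intro j
  induction j with
  | zero =>
    intro T hT hnT hmul
    have := eq_star hs hk hn hT.1 hnT (fun i h1 h2 => hmul i h1 (by omega))
    subst this
    exact SimpleGraph.Reachable.refl _
  | succ j ih =>
    intro T hT hnT hmul
    rcases lt_or_ge k (j + 2) with h | h
    · exact ih T hT hnT (fun i h1 h2 => by omega)
    · obtain ⟨W, T', hW, h1W, hnW, hTW, hT', hnT', hWT', hmul'⟩ :=
        op2 hs hT.1 hnT (k - 2 - j) (by omega) (fun i h1 h2 => hmul i h1 (by omega))
      have hsn : s < n := by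
        have h1 := star_le (i := 1) hk hn (by omega)
        omega
      have hWR : W ∈ Rn n k s := mem_Rn' hs hsn hW h1W hnW
      have hT'R : T' ∈ Rn n k s := mem_Rn hn1 hT' hnT'
      have a1 : (KG.induce (Rn n k s)).Adj ⟨T, hT⟩ ⟨W, hWR⟩ := kg_adj ⟨n, hnT⟩ hTW
      have a2 : (KG.induce (Rn n k s)).Adj ⟨W, hWR⟩ ⟨T', hT'R⟩ := kg_adj ⟨1, h1W⟩ hWT'
      exact a1.reachable.trans (a2.reachable.trans (ih T' hT'R hnT' (fun i h1 h2 =>
        hmul' i h1 (by omega))))

lemma connR {n k s : ℕ} (hs : 2 ≤ s) (hk : 1 ≤ k) (hn : s * k ≤ n) :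
    (KG.induce (Rn n k s)).Connected := by
  have hsn : s ≤ n := by
    have := star_le hk hn (Nat.zero_le (k - 1))
    omega
  have hst : star n k s ∈ Rn n k s :=
    mem_Rn (by omega) (star_stab hs hk hn) (mem_insert_self _ _)
  rw [SimpleGraph.connected_iff_exists_forall_reachable]
  refine ⟨⟨star n k s, hst⟩, ?_⟩
  rintro ⟨S, hS⟩
  by_cases h : n ∈ S
  · exact (reach hs hk hn hst k S hS h (fun i h1 h2 => by omega)).symm
  · obtain ⟨T, hT, hnT, hd⟩ := op1 hs hk hsn hS.1 h
    have hTR : T ∈ Rn n k s := mem_Rn (by omega) hT hnT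
    have a1 : (KG.induce (Rn n k s)).Adj ⟨T, hTR⟩ ⟨S, hS⟩ := kg_adj ⟨n, hnT⟩ hd.symm
    exact (reach hs hk hn hst k T hTR hnT (fun i h1 h2 => by omega)).symm.trans a1.reachable

lemma stab_succ {n k s : ℕ} {S : Finset ℕ} (h : Stab n k s S) : Stab (n + 1) k s S := by
  refine ⟨h.1.trans (Icc_subset_Icc_right (by omega)), h.2.1, ?_⟩
  intro i hi j hj hij
  have := h.2.2 i hi j hj hij
  omega

lemma conn_single {α : Type} (G : SimpleGraph α) (r : α) : (G.induce ({r} : Set α)).Connected := by
  rw [SimpleGraph.connected_iff_exists_forall_reachable]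
  refine ⟨⟨r, rfl⟩, ?_⟩
  rintro ⟨w, hw⟩
  have : w = r := hw
  subst this
  exact SimpleGraph.Reachable.refl _

lemma base_img {k s y : ℕ} {i : ℕ} : y ∈ (range k).image (fun a => i + 1 + a * s) ↔
    ∃ a, a < k ∧ i + 1 + a * s = y := by
  simp only [mem_image, mem_range]

lemma base {k s : ℕ} (hs : 2 ≤ s) (hk : 1 ≤ k) : Model KG {S | Stab (s * k) k s S} s := by
  have hle : ∀ a, a < k → a * s + s ≤ s * k := by
    intro a ha
    have := star_le (i := a) hk (le_refl (s * k)) (by omega)
    omega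
  refine ⟨fun i => {(range k).image (fun a => (i : ℕ) + 1 + a * s)}, ?_, ?_, ?_, ?_⟩
  · intro i S hS
    rw [Set.mem_singleton_iff] at hS
    subst hS
    have hi := i.2
    refine ⟨?_, ?_, ?_⟩
    · intro y hy
      rw [base_img] at hy
      obtain ⟨a, ha, rfl⟩ := hy
      rw [mem_Icc]
      have := hle a ha
      omega
    · rw [card_image_of_injective, card_range]
      intro a b hab
      simp only [Nat.add_left_cancel_iff] at hab
      exact Nat.eq_of_mul_eq_mul_right (by omega) hab
    · intro x hx y hy hxy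
      rw [base_img] at hx hy
      obtain ⟨a, ha, rfl⟩ := hx
      obtain ⟨b, hb, rfl⟩ := hy
      have h1 := hle b hb
      have h6 : a < b := by
        by_contra hcon
        have : b * s ≤ a * s := Nat.mul_le_mul_right s (by omega)
        omega
      have h7 : (a + 1) * s ≤ b * s := Nat.mul_le_mul_right s (by omega)
      have h8 : (a + 1) * s = a * s + s := by ring
      omega
  · intro i
    exact conn_single _ _
  · intro i j hij
    rw [Set.disjoint_singleton]
    intro h
    have h0 : (i : ℕ) + 1 + 0 * s ∈ (range k).image (fun a => (j : ℕ) + 1 + a * s) := by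
      rw [← h, base_img]
      exact ⟨0, by omega, rfl⟩
    rw [base_img] at h0
    obtain ⟨a, _, ha⟩ := h0
    have hi := i.2
    have hj := j.2
    rcases Nat.eq_zero_or_pos a with rfl | hpos
    · apply hij
      apply Fin.ext
      omega
    · have : 1 * s ≤ a * s := Nat.mul_le_mul_right s hpos
      omega
  · intro i j hij
    refine ⟨_, rfl, _, rfl, kg_adj ⟨(i : ℕ) + 1 + 0 * s, base_img.mpr ⟨0, by omega, rfl⟩⟩ ?_⟩
    rw [disjoint_left]
    intro y hy hy2
    rw [base_img] at hy hy2
    obtain ⟨a, ha, rfl⟩ := hy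
    obtain ⟨b, hb, hab⟩ := hy2
    have hi := i.2
    have hj := j.2
    apply hij
    apply Fin.ext
    rcases lt_trichotomy a b with h | h | h
    · have h7 : (a + 1) * s ≤ b * s := Nat.mul_le_mul_right s (by omega)
      have h8 : (a + 1) * s = a * s + s := by ring
      omega
    · subst h
      omega
    · have h7 : (b + 1) * s ≤ a * s := Nat.mul_le_mul_right s (by omega)
      have h8 : (b + 1) * s = b * s + s := by ring
      omega

/-- **Clique minors of stable Kneser graphs.** -/
theorem model {k s : ℕ} (hs : 2 ≤ s) (hk : 1 ≤ k) (d : ℕ) :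
    Model KG {S | Stab (s * k + d) k s S} (s + d) := by
  induction d with
  | zero => exact base hs hk
  | succ d ih =>
    have hn : s * k ≤ s * k + (d + 1) := by omega
    have hsn : s ≤ s * k + (d + 1) := by
      have := star_le hk hn (Nat.zero_le (k - 1))
      omega
    refine Model.succ ih (R := Rn (s * k + (d + 1)) k s) ?_ ?_ (connR hs hk hn) ?_ ?_
    · intro S hS
      exact stab_succ hS
    · intro S hS
      exact hS.1
    · rw [Set.disjoint_left]
      intro S hS hS2
      exact hS.2 hS2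
    · intro S hS
      have hS' : Stab (s * k + d) k s S := hS
      have hnS : s * k + (d + 1) ∉ S := by
        intro h
        have := (mem_Icc.mp (hS'.1 h)).2
        omega
      obtain ⟨T, hT, hnT, hd⟩ := op1 hs hk hsn (stab_succ hS') hnS
      have hne : S.Nonempty := by
        rw [← card_pos, hS'.2.1]
        omega
      exact ⟨T, mem_Rn (by omega) hT hnT, kg_adj hne hd⟩

theorem model' {n k s : ℕ} (hs : 2 ≤ s) (hk : 1 ≤ k) (hn : s * k ≤ n) :
    Model KG {S | Stab n k s S} (n - s * (k - 1)) := by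
  obtain ⟨d, rfl⟩ := Nat.exists_eq_add_of_le hn
  have h := model hs hk d
  have : s * k + d - s * (k - 1) = s + d := by
    obtain ⟨k', rfl⟩ : ∃ k', k = k' + 1 := ⟨k - 1, by omega⟩
    rw [Nat.add_sub_cancel, Nat.mul_succ]
    omega
  rw [this]
  exact h

/-- minors of an induced subgraph -/
lemma Model.toInduce {α : Type} {G : SimpleGraph α} {V : Set α} {m : ℕ} (h : Model G V m) :
    ∃ B : Fin m → Set V, (∀ i, ((G.induce V).induce (B i)).Connected) ∧
      (∀ i j, i ≠ j → Disjoint (B i) (B j)) ∧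
      ∀ i j, i ≠ j → ∃ u ∈ B i, ∃ v ∈ B j, (G.induce V).Adj u v := by
  obtain ⟨B, h1, h2, h3, h4⟩ := h
  refine ⟨fun i => {x | x.1 ∈ B i}, ?_, ?_, ?_⟩
  · intro i
    let e : G.induce (B i) ≃g (G.induce V).induce {x : V | x.1 ∈ B i} :=
      { toFun := fun x => ⟨⟨x.1, h1 i x.2⟩, x.2⟩
        invFun := fun x => ⟨x.1.1, x.2⟩
        left_inv := fun x => rfl
        right_inv := fun x => rfl
        map_rel_iff' := by intro a b; rfl }
    exact e.connected_iff.mp (h2 i)
  · intro i j hij
    rw [Set.disjoint_left]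
    intro x hx hx2
    exact Set.disjoint_left.mp (h3 i j hij) hx hx2
  · intro i j hij
    obtain ⟨u, hu, v, hv, huv⟩ := h4 i j hij
    exact ⟨⟨u, h1 i hu⟩, hu, ⟨v, h1 j hv⟩, hv, huv⟩

/-- a set with linear gaps at least `s` has a small least element -/
lemma min_small {n k s m : ℕ} (hs : 1 ≤ s) {S : Finset ℕ} (hm : ∀ x ∈ S, m ≤ x)
    (hn : ∀ x ∈ S, x ≤ n) (hcard : S.card = k)
    (hsep : ∀ i ∈ S, ∀ j ∈ S, i < j → i + s ≤ j) (hmn : m ≤ n) : m + s * (k - 1) ≤ n := by
  have h1 : S.card ≤ (range ((n - m) / s + 1)).card := by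
    apply card_le_card_of_injOn (fun x => (x - m) / s)
    · intro x hx
      simp only [coe_range, Set.mem_Iio]
      have := hn x hx
      have h2 : (x - m) / s ≤ (n - m) / s := Nat.div_le_div_right (by omega)
      omega
    · intro x hx y hy hxy
      by_contra hne'
      simp only at hxy
      rcases lt_or_gt_of_ne hne' with h | h
      · have h4 := hsep x hx y hy h
        have h5 := hm x hx
        have : (x - m) / s + 1 ≤ (y - m) / s := by
          rw [← Nat.add_div_right _ (by omega : 0 < s)]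
          exact Nat.div_le_div_right (by omega)
        omega
      · have h4 := hsep y hy x hx h
        have h5 := hm y hy
        have : (y - m) / s + 1 ≤ (x - m) / s := by
          rw [← Nat.add_div_right _ (by omega : 0 < s)]
          exact Nat.div_le_div_right (by omega)
        omega
  rw [card_range, hcard] at h1
  have h3 := Nat.mul_div_le (n - m) s
  generalize (n - m) / s = q at *
  have h2 : s * (k - 1) ≤ s * q := Nat.mul_le_mul_left s (by omega)
  omega

end Pool.Agent.J4.H77.HW
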